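import Pool.Agent.Lib.P0036f5.ToDLA

/-!
Size bounds.
-/

namespace Pool.Agent.Lib.P0036f5

open Classical

namespace DLA

section

variable {A σ : Type} [Fintype σ] (N : NFA A σ) {n : ℕ} (e : σ ≃ Fin n) (K : ℕ)

include e in
theorem card_eq : Fintype.card σ = n := by
  rw [Fintype.card_congr e, Fintype.card_fin]

theorem cost_Phi (hK : 2 * n ≤ 2 ^ K) (lj : Bool × Fin n) :
    (Phi N e K lj).cost ≤ 3 * (n * ((2 * n + 1) ^ K * (6 * n))) := by
  obtain ⟨l, j⟩ := lj
  have hj : (j : ℕ) < n := j.2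
  have hn : 0 < n := by omega
  have hcard : Fintype.card σ = n := card_eq e
  obtain ⟨Y, hY⟩ : ∃ Y, Y = (2 * n + 1) ^ K * (6 * n) := ⟨_, rfl⟩
  rw [← hY]
  have hYn : 6 * n ≤ Y := by
    rw [hY]; exact Nat.le_mul_of_pos_left _ (Nat.pow_pos (by omega))
  have hnY : Y ≤ n * Y := Nat.le_mul_of_pos_left _ hn
  cases l with
  | false =>
    change (Fm.const (decide (e.symm j ∈ N.start)) : Fm (Sym (WS' A))).cost ≤ _
    rw [Fm.cost_const]
    omega
  | true =>
    simp only [Phi]
    refine (Fm.cost_bigOr (C := 2 * Y) ?_).trans ?_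
    · intro φ hφ
      simp only [List.mem_map] at hφ
      obtain ⟨k, _, rfl⟩ := hφ
      have h1 := Fm.reach_cost (stp N) (fun i => n + (j : ℕ) - i - 1) (2 * n - 1) K 0 n k
        (e.symm j) (by omega) (fun m _ _ => by omega)
      rw [hcard] at h1
      have h2 : (2 * n + 1) ^ K * (3 * (2 * n - 1 + 1)) = Y := by
        rw [hY]; congr 1; omega
      rw [h2] at h1
      simp only [Fm.cost]
      omega
    · rw [List.length_map, Finset.length_toList, Finset.card_univ, hcard]
      have : n * (2 * Y) = 2 * (n * Y) := by ring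
      rw [this]
      omega

theorem cost_Psi (hK : 2 * n ≤ 2 ^ K) (lj : Bool × Fin n) :
    (Psi N e K lj).cost ≤ 5 * (n * (n * ((2 * n + 1) ^ K * (6 * n)))) := by
  obtain ⟨l, j⟩ := lj
  have hj : (j : ℕ) < n := j.2
  have hn : 0 < n := by omega
  have hcard : Fintype.card σ = n := card_eq e
  obtain ⟨Y, hY⟩ : ∃ Y, Y = (2 * n + 1) ^ K * (6 * n) := ⟨_, rfl⟩
  rw [← hY]
  have hYn : 6 * n ≤ Y := by
    rw [hY]; exact Nat.le_mul_of_pos_left _ (Nat.pow_pos (by omega))
  have hnY : Y ≤ n * Y := Nat.le_mul_of_pos_left _ hn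
  have hnnY : n * Y ≤ n * (n * Y) := Nat.le_mul_of_pos_left _ hn
  have h2 : (2 * n + 1) ^ K * (3 * (2 * n - 1 + 1)) = Y := by
    rw [hY]; congr 1; omega
  have key : ∀ (dist : ℕ → ℕ) (len : ℕ) (k : σ), len ≤ 2 * n →
      (∀ m, m < len → dist m ≤ 2 * n - 1) →
      (Fm.bigOr ((Finset.univ : Finset σ).toList.map (fun f =>
        Fm.and (Fm.const (decide (f ∈ N.accept)))
          (Fm.reach (stp N) dist K 0 len k f)))).cost ≤ 3 * (n * Y) := by
    intro dist len k hlen hdist
    refine (Fm.cost_bigOr (C := 3 + Y) ?_).trans ?_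
    · intro ψ hψ
      simp only [List.mem_map] at hψ
      obtain ⟨f, _, rfl⟩ := hψ
      have h1 := Fm.reach_cost (stp N) dist (2 * n - 1) K 0 len k f (by omega)
        (fun m _ h => hdist m (by omega))
      rw [hcard, h2] at h1
      simp only [Fm.cost, Fm.cost_const]
      omega
    · rw [List.length_map, Finset.length_toList, Finset.card_univ, hcard]
      have h3 : n * (3 + Y) = 3 * n + n * Y := by ring
      rw [h3]
      omega
  cases l with
  | false =>
    simp only [Psi]
    refine (Fm.cost_bigOr (C := 4 * (n * Y)) ?_).trans ?_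
    · intro φ hφ
      simp only [List.mem_map] at hφ
      obtain ⟨k, _, rfl⟩ := hφ
      have h1 := key (fun i => (j : ℕ) - i) j k (by omega) (fun m _ => by omega)
      simp only [Fm.cost, Fm.cost_const]
      omega
    · rw [List.length_map, Finset.length_toList, Finset.card_univ, hcard]
      have h3 : n * (4 * (n * Y)) = 4 * (n * (n * Y)) := by ring
      rw [h3]
      omega
  | true =>
    simp only [Psi]
    refine (Fm.cost_bigOr (C := 4 * (n * Y)) ?_).trans ?_
    · intro φ hφ
      simp only [List.mem_map] at hφ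
      obtain ⟨k, _, rfl⟩ := hφ
      have h1 := key (fun i => n + (j : ℕ) - i) (n + j) k (by omega) (fun m _ => by omega)
      simp only [Fm.cost]
      omega
    · rw [List.length_map, Finset.length_toList, Finset.card_univ, hcard]
      have h3 : n * (4 * (n * Y)) = 4 * (n * (n * Y)) := by ring
      rw [h3]
      omega

theorem card_St_le (hn : 0 < n) (hK : 2 * n ≤ 2 ^ K) :
    Fintype.card (St N e K) ≤ 120 * n ^ 4 * (2 * n + 1) ^ K := by
  rw [card_St]
  obtain ⟨Y, hY⟩ : ∃ Y, Y = (2 * n + 1) ^ K * (6 * n) := ⟨_, rfl⟩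
  have hYn : 6 * n ≤ Y := by
    rw [hY]; exact Nat.le_mul_of_pos_left _ (Nat.pow_pos (by omega))
  have hnY : Y ≤ n * Y := Nat.le_mul_of_pos_left _ hn
  have hnnY : n * Y ≤ n * (n * Y) := Nat.le_mul_of_pos_left _ hn
  have hnnnY : n * (n * Y) ≤ n * (n * (n * Y)) := Nat.le_mul_of_pos_left _ hn
  have hsum : ∑ lj : Bool × Fin n, ((Phi N e K lj).cost + (Psi N e K lj).cost) ≤
      2 * n * (8 * (n * (n * Y))) := by
    have : ∀ lj ∈ (Finset.univ : Finset (Bool × Fin n)),
        (Phi N e K lj).cost + (Psi N e K lj).cost ≤ 8 * (n * (n * Y)) := by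
      intro lj _
      have h1 := cost_Phi N e K hK lj
      have h2 := cost_Psi N e K hK lj
      rw [← hY] at h1 h2
      omega
    refine (Finset.sum_le_card_nsmul _ _ _ this).trans ?_
    rw [Finset.card_univ, Fintype.card_prod, Fintype.card_bool, Fintype.card_fin, smul_eq_mul]
  have h4 : 2 * n * (8 * (n * (n * Y))) = 16 * (n * (n * (n * Y))) := by ring
  rw [h4] at hsum
  have h5 : 120 * n ^ 4 * (2 * n + 1) ^ K = 20 * (n * (n * (n * Y))) := by
    rw [hY]; ring
  rw [h5]
  omega

/-- Size of the deterministic machine. -/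
theorem size_dla [Fintype A] [NeZero n] (hK : 2 * n ≤ 2 ^ K) :
    (dla N e K).size + 1 ≤
      (120 * n ^ 4 * (2 * n + 1) ^ K + 1) * (3 * Fintype.card A + 4) := by
  have hn : 0 < n := NeZero.pos n
  have h1 : Fintype.card (dla N e K).Q ≤ 120 * n ^ 4 * (2 * n + 1) ^ K :=
    (le_of_eq (Fintype.card_congr (Equiv.refl _))).trans (card_St_le N e K hn hK)
  have h2 : Fintype.card (Sym (dla N e K).W) = 3 * Fintype.card A + 3 := by
    have e1 : Sym (WS' A) ≃ (Bool ⊕ WS' A) :=
      { toFun := fun x => match x with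
          | .lend => .inl false
          | .rend => .inl true
          | .sym a => .inr a
        invFun := fun x => match x with
          | .inl false => .lend
          | .inl true => .rend
          | .inr a => .sym a
        left_inv := by rintro (_ | _ | _) <;> rfl
        right_inv := by rintro ((_ | _) | _) <;> rfl }
    have e2 : Fintype.card (Sym (dla N e K).W) = Fintype.card (Bool ⊕ WS' A) :=
      Fintype.card_congr e1
    rw [e2]
    simp only [WS', Fintype.card_sum, Fintype.card_bool, Fintype.card_option, Fintype.card_prod]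
    ring
  have h3 : ∑ q : (dla N e K).Q, ∑ x : Sym (dla N e K).W, ((dla N e K).δ q x).card ≤
      Fintype.card (dla N e K).Q * (3 * Fintype.card A + 3) := by
    refine (Finset.sum_le_card_nsmul _ _ (3 * Fintype.card A + 3) ?_).trans ?_
    · intro q _
      refine (Finset.sum_le_card_nsmul _ _ 1 ?_).trans ?_
      · intro x _
        exact dla_deterministic N e K q x
      · rw [Finset.card_univ, h2, smul_eq_mul, Nat.mul_one]
    · rw [Finset.card_univ, smul_eq_mul]
  unfold LA.size
  rw [h2]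
  calc Fintype.card (dla N e K).Q + (3 * Fintype.card A + 3) + _ + 1
      ≤ Fintype.card (dla N e K).Q + (3 * Fintype.card A + 3) +
        Fintype.card (dla N e K).Q * (3 * Fintype.card A + 3) + 1 := by omega
    _ = (Fintype.card (dla N e K).Q + 1) * (3 * Fintype.card A + 4) := by ring
    _ ≤ _ := Nat.mul_le_mul_right _ (by omega)

end

end DLA

/-- A nondeterministic finite automaton with `n` states over an alphabet with `a` letters has an
equivalent deterministic 1-limited automaton of size `(n a)^O(log n)`. -/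
theorem nfa_to_dla {A σ : Type} [Fintype A] [Fintype σ] (N : NFA A σ) {K : ℕ}
    (hpos : 0 < Fintype.card σ) (hK : 2 * Fintype.card σ ≤ 2 ^ K) :
    ∃ M : LA A, M.Deterministic ∧ (∀ st, M.language st = N.accepts) ∧
      M.size + 1 ≤ (120 * (Fintype.card σ) ^ 4 * (2 * Fintype.card σ + 1) ^ K + 1) *
        (3 * Fintype.card A + 4) := by
  haveI : NeZero (Fintype.card σ) := ⟨by omega⟩
  exact ⟨DLA.dla N (Fintype.equivFin σ) K, DLA.dla_deterministic _ _ _,
    fun st => DLA.dla_language hK st, DLA.size_dla _ _ _ hK⟩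

/-- A single exponential suffices. -/
theorem la_to_dla {A : Type} (M : LA A) (st : Bool) :
    ∃ M' : LA A, M'.Deterministic ∧ (∀ st', M'.language st' = M.language st) ∧
      M'.size ≤ 2 ^ (2 * M.size ^ 4) := by
  haveI : Fintype A := Fintype.ofInjective M.letter M.letter.injective
  haveI : Nonempty M.Q := ⟨M.start⟩
  obtain ⟨s, hs⟩ : ∃ s, s = M.size := ⟨_, rfl⟩
  have hA : Fintype.card A ≤ Fintype.card M.W := Fintype.card_le_of_injective _ M.letter.injective
  have hW : Fintype.card (Sym M.W) = Fintype.card M.W + 2 := by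
    have e1 : Sym M.W ≃ (Bool ⊕ M.W) :=
      { toFun := fun x => match x with
          | .lend => .inl false
          | .rend => .inl true
          | .sym a => .inr a
        invFun := fun x => match x with
          | .inl false => .lend
          | .inl true => .rend
          | .inr a => .sym a
        left_inv := by rintro (_ | _ | _) <;> rfl
        right_inv := by rintro ((_ | _) | _) <;> rfl }
    rw [Fintype.card_congr e1, Fintype.card_sum, Fintype.card_bool]
    ring
  obtain ⟨q, hq⟩ : ∃ q, q = Fintype.card M.Q := ⟨_, rfl⟩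
  have hq1 : 1 ≤ q := by rw [hq]; exact Fintype.card_pos
  have hle : q + (Fintype.card M.W + 2) ≤ s := by
    rw [hs, LA.size, hW, ← hq]
    omega
  have hqs : q + 2 ≤ s := by omega
  have hs3 : 3 ≤ s := by omega
  -- number of states of the finite automaton
  obtain ⟨n, hn⟩ : ∃ n, n = Fintype.card (M.Q × Set (M.Q × M.Q)) := ⟨_, rfl⟩
  have hn' : n = q * 2 ^ (q * q) := by
    rw [hn, Fintype.card_prod, Fintype.card_set, Fintype.card_prod, ← hq]
  have hnpos : 0 < n := by rw [hn']; positivity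
  have hn2 : 4 * n ≤ 2 ^ (s * s) := by
    have h1 : n ≤ 2 ^ (q + q * q) := by
      rw [hn', pow_add]
      exact Nat.mul_le_mul_right _ (Nat.lt_two_pow_self).le
    calc 4 * n ≤ 4 * 2 ^ (q + q * q) := Nat.mul_le_mul_left _ h1
      _ = 2 ^ (2 + (q + q * q)) := by rw [pow_add 2 2]; norm_num
      _ ≤ 2 ^ (s * s) := by
        refine Nat.pow_le_pow_right (by norm_num) ?_
        have : (q + 2) * (q + 2) ≤ s * s := Nat.mul_le_mul hqs hqs
        nlinarith
  have hK : 2 * n ≤ 2 ^ (s * s) := by omega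
  obtain ⟨M', hdet, hlang, hsize⟩ := nfa_to_dla (M.toNFA st) (K := s * s) (by rw [← hn]; exact hnpos)
    (by rw [← hn]; exact hK)
  refine ⟨M', hdet, fun st' => (hlang st').trans (LA.toNFA_accepts M st), ?_⟩
  rw [← hs]
  rw [← hn] at hsize
  have h1 : (2 * n + 1) ^ (s * s) ≤ 2 ^ (s ^ 4) := by
    calc (2 * n + 1) ^ (s * s) ≤ (2 ^ (s * s)) ^ (s * s) := Nat.pow_le_pow_left (by omega) _
      _ = 2 ^ (s ^ 4) := by rw [← pow_mul]; ring_nf
  have h2 : n ^ 4 ≤ 2 ^ (4 * (s * s)) := by
    calc n ^ 4 ≤ (2 ^ (s * s)) ^ 4 := Nat.pow_le_pow_left (by omega) _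
      _ = 2 ^ (4 * (s * s)) := by rw [← pow_mul]; ring_nf
  have h3 : 120 * n ^ 4 * (2 * n + 1) ^ (s * s) ≤ 2 ^ (7 + 4 * (s * s) + s ^ 4) := by
    rw [pow_add, pow_add]
    exact Nat.mul_le_mul (Nat.mul_le_mul (by norm_num) h2) h1
  have h4 : 3 * Fintype.card A + 4 ≤ 2 ^ (s + 2) := by
    have : s < 2 ^ s := Nat.lt_two_pow_self
    rw [pow_add]
    omega
  have h5 : 1 ≤ 2 ^ (7 + 4 * (s * s) + s ^ 4) := Nat.one_le_two_pow
  calc M'.size ≤ (120 * n ^ 4 * (2 * n + 1) ^ (s * s) + 1) * (3 * Fintype.card A + 4) := by omega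
    _ ≤ (2 * 2 ^ (7 + 4 * (s * s) + s ^ 4)) * 2 ^ (s + 2) := Nat.mul_le_mul (by omega) h4
    _ = 2 ^ (8 + 4 * (s * s) + s ^ 4 + (s + 2)) := by
      rw [← pow_succ', ← pow_add]; ring_nf
    _ ≤ 2 ^ (2 * s ^ 4) := by
      refine Nat.pow_le_pow_right (by norm_num) ?_
      obtain ⟨t, rfl⟩ : ∃ t, s = t + 3 := ⟨s - 3, by omega⟩
      ring_nf
      nlinarith [Nat.zero_le (t ^ 4), Nat.zero_le (t ^ 3), Nat.zero_le (t ^ 2)]

end Pool.Agent.Lib.P0036f5
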