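import Mathlib

/-!
1-limited automata (definitions).
-/

namespace Pool.Agent.Lib.P0036f5

/-- Tape symbols over the work symbols `W`: the two end-markers and the work symbols. -/
inductive Sym (W : Type) : Type
  /-- the left end-marker -/
  | lend : Sym W
  /-- the right end-marker -/
  | rend : Sym W
  /-- a work symbol -/
  | sym : W → Sym W
  deriving DecidableEq, Fintype

/-- Head directions. -/
inductive Dir : Type
  /-- one cell to the left -/
  | left : Dir
  /-- one cell to the right -/
  | right : Dir
  deriving DecidableEq

/-- A 1-limited automaton over the input alphabet `A`. -/
structure LA (A : Type) where
  /-- states -/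
  Q : Type
  /-- work symbols other than the end-markers (they include the input letters) -/
  W : Type
  [finQ : Fintype Q]
  [finW : Fintype W]
  /-- the input letters as work symbols -/
  letter : A ↪ W
  /-- the transition function: in state `q` scanning the symbol `x`, a triple `(q', γ, d)` in
  `δ q x` allows to enter state `q'`, write `γ` and move in direction `d` -/
  δ : Q → Sym W → Finset (Q × W × Dir)
  /-- initial state -/
  start : Q
  /-- final states -/
  final : Finset Q

namespace LA

variable {A : Type}

instance (M : LA A) : Fintype M.Q := M.finQ
instance (M : LA A) : Fintype M.W := M.finW

/-- The size of a 1-limited automaton: number of states, plus number of tape symbols (the two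
end-markers included), plus number of transitions. -/
def size (M : LA A) : ℕ :=
  Fintype.card M.Q + Fintype.card (Sym M.W) + ∑ q : M.Q, ∑ x : Sym M.W, (M.δ q x).card

/-- A 1-limited automaton is deterministic if there is at most one transition for every state
and symbol. -/
def Deterministic (M : LA A) : Prop := ∀ q x, (M.δ q x).card ≤ 1

/-- A configuration: state, head position, tape contents, and the set of the cells that have
been scanned before. -/
structure Cfg (M : LA A) where
  /-- current state -/
  state : M.Q
  /-- position of the head -/
  head : ℕ
  /-- contents of the cells -/
  tape : ℕ → Sym M.W
  /-- cells that have been scanned in some earlier move -/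
  visited : Set ℕ

/-- The initial tape on input `w`: left end-marker in cell `0`, the letters of `w` in the cells
`1,…,|w|`, right end-marker in cell `|w|+1`. -/
def initTape (M : LA A) (w : List A) : ℕ → Sym M.W
  | 0 => Sym.lend
  | i + 1 => match w[i]? with
    | some a => Sym.sym (M.letter a)
    | none => Sym.rend

/-- The initial configuration on input `w`: the head scans cell `1`. -/
def init (M : LA A) (w : List A) : Cfg M := ⟨M.start, 1, M.initTape w, ∅⟩

open Classical in
/-- One move on an input of length `n`. The head must be on the tape (cells `0,…,n+1`). The
machine picks a transition for its state and the scanned symbol; the written symbol is stored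
only if the scanned cell is an input cell (`1,…,n`) that is scanned for the first time. The head
moves by one cell; it cannot move to the left of cell `0`, and a right move from cell `n+1`
leads off the tape, to position `n+2`, where no further move is possible.

There are two conventions for a transition that would write a new symbol `γ` into a cell that
has been scanned before. For `st = false` the transition may be used, and nothing is written. For
`st = true` the transition is not applicable: the symbol `γ` has to be the work symbol which the
cell holds (in both conventions the symbol written on an end-marker is ignored). -/
def Step (M : LA A) (st : Bool) (n : ℕ) (c c' : Cfg M) : Prop :=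
  c.head ≤ n + 1 ∧ ∃ γ : M.W,
    (st = true → c.head ∈ c.visited → ∀ γ', c.tape c.head = Sym.sym γ' → γ = γ') ∧
    (((c'.state, γ, Dir.right) ∈ M.δ c.state (c.tape c.head) ∧ c'.head = c.head + 1) ∨
      ((c'.state, γ, Dir.left) ∈ M.δ c.state (c.tape c.head) ∧ c'.head + 1 = c.head)) ∧
    c'.tape = (if 1 ≤ c.head ∧ c.head ≤ n ∧ c.head ∉ c.visited
      then Function.update c.tape c.head (Sym.sym γ) else c.tape) ∧
    c'.visited = insert c.head c.visited

/-- `M` accepts `w` if some computation moves past the right end-marker into a final state. -/
def Accepts (M : LA A) (st : Bool) (w : List A) : Prop :=
  ∃ c : Cfg M, Relation.ReflTransGen (M.Step st w.length) (M.init w) c ∧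
    c.head = w.length + 2 ∧ c.state ∈ M.final

/-- The language accepted by `M`. -/
def language (M : LA A) (st : Bool) : Language A := {w | M.Accepts st w}

end LA

end Pool.Agent.Lib.P0036f5
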