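import Pool.Agent.Lib.P0036f5.ToNFA

/-!
Boolean formulas over tape symbols at given distances to the left of a home cell, their
evaluation by a read-only deterministic two-way head, and Savitch-style reachability formulas.
-/

namespace Pool.Agent.Lib.P0036f5

open Relation

/-- Boolean formulas; `lit d φ` tests the symbol at distance `d` to the left of the home cell. -/
inductive Fm (B : Type) : Type
  | lit : ℕ → (B → Bool) → Fm B
  | and : Fm B → Fm B → Fm B
  | or : Fm B → Fm B → Fm B

namespace Fm

variable {B : Type}

/-- Value of a formula; `g d` is the symbol at distance `d`. -/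
def eval (g : ℕ → B) : Fm B → Bool
  | lit d φ => φ (g d)
  | and x y => eval g x && eval g y
  | or x y => eval g x || eval g y

/-- All distances are at most `D`. -/
def Dist (D : ℕ) : Fm B → Prop
  | lit d _ => d ≤ D
  | and x y => Dist D x ∧ Dist D y
  | or x y => Dist D x ∧ Dist D y

/-- Control states used to evaluate the formula. -/
def Nd : Fm B → Type
  | lit d _ => Fin (d + 1) ⊕ (Bool × Fin (d + 1))
  | and x y => Nd x ⊕ Nd y
  | or x y => Nd x ⊕ Nd y

/-- Number of control states. -/
def cost : Fm B → ℕ
  | lit d _ => 3 * (d + 1)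
  | and x y => cost x + cost y
  | or x y => cost x + cost y

instance instFintypeNd : (x : Fm B) → Fintype (Nd x)
  | lit d _ => inferInstanceAs (Fintype (Fin (d + 1) ⊕ (Bool × Fin (d + 1))))
  | and x y =>
    letI := instFintypeNd x
    letI := instFintypeNd y
    inferInstanceAs (Fintype (Nd x ⊕ Nd y))
  | or x y =>
    letI := instFintypeNd x
    letI := instFintypeNd y
    inferInstanceAs (Fintype (Nd x ⊕ Nd y))

theorem card_Nd : (x : Fm B) → Fintype.card (Nd x) = cost x
  | lit d _ => by
    change Fintype.card (Fin (d + 1) ⊕ (Bool × Fin (d + 1))) = _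
    simp only [Fintype.card_sum, Fintype.card_fin, Fintype.card_prod, Fintype.card_bool, cost]
    ring
  | and x y => by
    letI := instFintypeNd x
    letI := instFintypeNd y
    change Fintype.card (Nd x ⊕ Nd y) = _
    rw [Fintype.card_sum, card_Nd x, card_Nd y]
    rfl
  | or x y => by
    letI := instFintypeNd x
    letI := instFintypeNd y
    change Fintype.card (Nd x ⊕ Nd y) = _
    rw [Fintype.card_sum, card_Nd x, card_Nd y]
    rfl

/-- First control state. -/
def entry : (x : Fm B) → Nd x
  | lit _ _ => Sum.inl 0
  | and x _ => Sum.inl (entry x)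
  | or x _ => Sum.inl (entry x)

/-- Control: next state and direction; `t`, `f` are the states entered (at the home cell) when
the formula has been found true or false. -/
def tr {St : Type} : (x : Fm B) → (Nd x → St) → St → St → Nd x → B → St × Dir
  | lit d φ, emb, t, f, ν, s =>
    match ν with
    | Sum.inl c =>
      if h : (c : ℕ) < d then (emb (Sum.inl ⟨c + 1, by omega⟩), Dir.left)
      else (emb (Sum.inr (φ s, Fin.last d)), Dir.left)
    | Sum.inr (b, c) =>
      if h : (c : ℕ) = 0 then (if b then t else f, Dir.right)
      else (emb (Sum.inr (b, ⟨c - 1, by omega⟩)), Dir.right)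
  | and x y, emb, t, f, ν, s =>
    match ν with
    | Sum.inl ν => tr x (fun ν => emb (Sum.inl ν)) (emb (Sum.inr (entry y))) f ν s
    | Sum.inr ν => tr y (fun ν => emb (Sum.inr ν)) t f ν s
  | or x y, emb, t, f, ν, s =>
    match ν with
    | Sum.inl ν => tr x (fun ν => emb (Sum.inl ν)) t (emb (Sum.inr (entry y))) ν s
    | Sum.inr ν => tr y (fun ν => emb (Sum.inr ν)) t f ν s

/-- One move of a read-only deterministic walker on the tape `x`, from a position `≤ H`. -/
def WS {St : Type} (step : St → B → St × Dir → Prop) (x : ℕ → B) (H : ℕ) (a b : ℕ × St) : Prop :=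
  a.1 ≤ H ∧ ((b.1 = a.1 + 1 ∧ step a.2 (x a.1) (b.2, Dir.right)) ∨
    (b.1 + 1 = a.1 ∧ step a.2 (x a.1) (b.2, Dir.left)))

/-- Evaluation of a formula by walking. -/
theorem walk {St : Type} (step : St → B → St × Dir → Prop) (x : ℕ → B) (H : ℕ) :
    ∀ (φ : Fm B) (D : ℕ), φ.Dist D → D < H →
    ∀ (emb : Nd φ → St) (t f : St), (∀ ν s, step (emb ν) s (tr φ emb t f ν s)) →
    ReflTransGen (WS step x H) (H, emb (entry φ))
      (H, if φ.eval (fun d => x (H - d)) then t else f) := by
  intro φ
  induction φ with
  | lit d φ =>
    intro D hD hDH emb t f hstep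
    have hd : d ≤ D := hD
    -- going left
    have go : ∀ c : ℕ, (hc : c ≤ d) → ReflTransGen (WS step x H) (H, emb (entry (lit d φ)))
        (H - c, emb (Sum.inl ⟨c, by omega⟩)) := by
      intro c
      induction c with
      | zero => intro _; exact ReflTransGen.refl
      | succ c ih =>
        intro hc
        refine (ih (by omega)).tail ⟨by simp only; omega, Or.inr ⟨by simp only; omega, ?_⟩⟩
        have := hstep (Sum.inl ⟨c, by omega⟩) (x (H - c))
        simp only [tr] at this
        rw [dif_pos (by omega)] at this
        exact this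
    -- turning
    have turn : WS step x H (H - d, emb (Sum.inl ⟨d, by omega⟩))
        (H - (d + 1), emb (Sum.inr (φ (x (H - d)), ⟨d, by omega⟩))) := by
      refine ⟨by simp only; omega, Or.inr ⟨by simp only; omega, ?_⟩⟩
      have := hstep (Sum.inl ⟨d, by omega⟩) (x (H - d))
      simp only [tr] at this
      rw [dif_neg (by omega)] at this
      exact this
    -- coming back
    have back : ∀ c : ℕ, (hc : c ≤ d) → ReflTransGen (WS step x H)
        (H - (c + 1), emb (Sum.inr (φ (x (H - d)), ⟨c, by omega⟩)))
        (H, if φ (x (H - d)) then t else f) := by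
      intro c
      induction c with
      | zero =>
        intro hc
        refine ReflTransGen.single ⟨by simp only; omega, Or.inl ⟨by simp only; omega, ?_⟩⟩
        have := hstep (Sum.inr (φ (x (H - d)), ⟨0, by omega⟩)) (x (H - (0 + 1)))
        simp only [tr] at this
        exact this
      | succ c ih =>
        intro hc
        refine ReflTransGen.head (b := (H - (c + 1), emb (Sum.inr (φ (x (H - d)), ⟨c, by omega⟩))))
          ⟨by simp only; omega, Or.inl ⟨by simp only; omega, ?_⟩⟩ (ih (by omega))
        have := hstep (Sum.inr (φ (x (H - d)), ⟨c + 1, by omega⟩)) (x (H - (c + 1 + 1)))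
        simp only [tr] at this
        rw [dif_neg (by omega)] at this
        exact this
    exact (go d le_rfl).trans (ReflTransGen.head turn (back d le_rfl))
  | and φ ψ ihφ ihψ =>
    intro D hD hDH emb t f hstep
    have h1 := ihφ D hD.1 hDH (fun ν => emb (Sum.inl ν)) (emb (Sum.inr (entry ψ))) f
      (fun ν s => by have := hstep (Sum.inl ν) s; simpa only [tr] using this)
    have h2 := ihψ D hD.2 hDH (fun ν => emb (Sum.inr ν)) t f
      (fun ν s => by have := hstep (Sum.inr ν) s; simpa only [tr] using this)
    by_cases hφ : φ.eval (fun d => x (H - d)) = true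
    · rw [if_pos hφ] at h1
      have e : (and φ ψ).eval (fun d => x (H - d)) = ψ.eval (fun d => x (H - d)) := by
        simp only [eval, hφ, Bool.true_and]
      rw [e]
      exact h1.trans h2
    · rw [if_neg hφ] at h1
      have e : (and φ ψ).eval (fun d => x (H - d)) = false := by
        simp only [eval, hφ, Bool.false_and]
      rw [e]
      exact h1
  | or φ ψ ihφ ihψ =>
    intro D hD hDH emb t f hstep
    have h1 := ihφ D hD.1 hDH (fun ν => emb (Sum.inl ν)) t (emb (Sum.inr (entry ψ)))
      (fun ν s => by have := hstep (Sum.inl ν) s; simpa only [tr] using this)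
    have h2 := ihψ D hD.2 hDH (fun ν => emb (Sum.inr ν)) t f
      (fun ν s => by have := hstep (Sum.inr ν) s; simpa only [tr] using this)
    by_cases hφ : φ.eval (fun d => x (H - d)) = true
    · rw [if_pos hφ] at h1
      have e : (or φ ψ).eval (fun d => x (H - d)) = true := by
        simp only [eval, hφ, Bool.true_or]
      rw [e]
      exact h1
    · rw [if_neg hφ] at h1
      have e : (or φ ψ).eval (fun d => x (H - d)) = ψ.eval (fun d => x (H - d)) := by
        simp only [eval, hφ, Bool.false_or]
      rw [e]
      exact h1.trans h2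

/-! ### Big disjunctions and constants -/

/-- a constant formula -/
def const (b : Bool) : Fm B := lit 0 (fun _ => b)

/-- disjunction of a list -/
def bigOr : List (Fm B) → Fm B
  | [] => const false
  | φ :: l => or φ (bigOr l)

theorem eval_const (g : ℕ → B) (b : Bool) : (const b).eval g = b := rfl

theorem eval_bigOr (g : ℕ → B) (l : List (Fm B)) :
    (bigOr l).eval g = true ↔ ∃ φ ∈ l, φ.eval g = true := by
  induction l with
  | nil => simp [bigOr, const, eval]
  | cons φ l ih => simp [bigOr, eval, ih]

theorem dist_const (D : ℕ) (b : Bool) : (const b : Fm B).Dist D := Nat.zero_le D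

theorem dist_bigOr {D : ℕ} {l : List (Fm B)} (h : ∀ φ ∈ l, φ.Dist D) : (bigOr l).Dist D := by
  induction l with
  | nil => exact dist_const D false
  | cons φ l ih => exact ⟨h φ (by simp), ih (fun ψ hψ => h ψ (by simp [hψ]))⟩

theorem cost_const (b : Bool) : (const b : Fm B).cost = 3 := rfl

theorem cost_bigOr {C : ℕ} {l : List (Fm B)} (h : ∀ φ ∈ l, φ.cost ≤ C) :
    (bigOr l).cost ≤ l.length * C + 3 := by
  induction l with
  | nil => simp [bigOr, cost_const]
  | cons φ l ih =>
    have h1 := h φ (by simp)
    have h2 := ih (fun ψ hψ => h ψ (by simp [hψ]))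
    simp only [bigOr, cost, List.length_cons]
    rw [Nat.succ_mul]
    omega

/-! ### Reachability formulas -/

section reach

variable {σ : Type} [Fintype σ]

open Classical in
/-- Reachability from `p` to `q` along `len` letters, the letter number `i + m` being at distance
`dist (i + m)`; `stp s s' x` tests whether the symbol `x` allows the step from `s` to `s'`. -/
noncomputable def reach (stp : σ → σ → B → Bool) (dist : ℕ → ℕ) : ℕ → ℕ → ℕ → σ → σ → Fm B
  | 0, i, len, p, q => if len = 0 then const (decide (p = q)) else lit (dist i) (stp p q)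
  | k + 1, i, len, p, q =>
    if len = 0 then const (decide (p = q)) else
    if len = 1 then lit (dist i) (stp p q) else
      bigOr ((Finset.univ : Finset σ).toList.map (fun s =>
        and (reach stp dist k i (len / 2) p s)
          (reach stp dist k (i + len / 2) (len - len / 2) s q)))

theorem reach_dist (stp : σ → σ → B → Bool) (dist : ℕ → ℕ) (D : ℕ) :
    ∀ (k i len : ℕ) (p q : σ), len ≤ 2 ^ k → (∀ m, i ≤ m → m < i + len → dist m ≤ D) →
      (reach stp dist k i len p q).Dist D := by
  intro k
  induction k with
  | zero =>
    intro i len p q hlen h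
    unfold reach
    split_ifs with h0
    · exact dist_const _ _
    · exact h i le_rfl (by omega)
  | succ k ih =>
    intro i len p q hlen h
    unfold reach
    split_ifs with h0 h1
    · exact dist_const _ _
    · exact h i le_rfl (by omega)
    · apply dist_bigOr
      intro φ hφ
      simp only [List.mem_map] at hφ
      obtain ⟨s, _, rfl⟩ := hφ
      have : 2 ^ (k + 1) = 2 * 2 ^ k := by rw [pow_succ]; ring
      exact ⟨ih _ _ _ _ (by omega) (fun m h2 h3 => h m h2 (by omega)),
        ih _ _ _ _ (by omega) (fun m h2 h3 => h m (by omega) (by omega))⟩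

theorem reach_cost (stp : σ → σ → B → Bool) (dist : ℕ → ℕ) (D : ℕ) :
    ∀ (k i len : ℕ) (p q : σ), len ≤ 2 ^ k → (∀ m, i ≤ m → m < i + len → dist m ≤ D) →
      (reach stp dist k i len p q).cost ≤ (2 * Fintype.card σ + 1) ^ k * (3 * (D + 1)) := by
  intro k
  induction k with
  | zero =>
    intro i len p q hlen h
    unfold reach
    split_ifs with h0
    · rw [cost_const, pow_zero, Nat.one_mul]; omega
    · have := h i le_rfl (by omega)
      simp only [cost, pow_zero, Nat.one_mul]
      omega
  | succ k ih =>
    intro i len p q hlen h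
    have hX : 1 ≤ (2 * Fintype.card σ + 1) ^ (k + 1) := Nat.one_le_pow _ _ (by omega)
    have hbase : 3 * (D + 1) ≤ (2 * Fintype.card σ + 1) ^ (k + 1) * (3 * (D + 1)) :=
      Nat.le_mul_of_pos_left _ (by omega)
    unfold reach
    split_ifs with h0 h1
    · rw [cost_const]; omega
    · have := h i le_rfl (by omega)
      simp only [cost]
      omega
    · have h2 : 2 ^ (k + 1) = 2 * 2 ^ k := by rw [pow_succ]; ring
      set C := (2 * Fintype.card σ + 1) ^ k * (3 * (D + 1)) with hC
      have hC3 : 3 ≤ C := by
        have : 1 ≤ (2 * Fintype.card σ + 1) ^ k := Nat.one_le_pow _ _ (by omega)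
        calc 3 ≤ 3 * (D + 1) := by omega
          _ ≤ C := Nat.le_mul_of_pos_left _ (by omega)
      refine (cost_bigOr (C := 2 * C) ?_).trans ?_
      · intro φ hφ
        simp only [List.mem_map] at hφ
        obtain ⟨s, _, rfl⟩ := hφ
        have e1 := ih i (len / 2) p s (by omega) (fun m h2 h3 => h m h2 (by omega))
        have e2 := ih (i + len / 2) (len - len / 2) s q (by omega)
          (fun m h2 h3 => h m (by omega) (by omega))
        simp only [cost]
        omega
      · rw [List.length_map, Finset.length_toList, Finset.card_univ, pow_succ]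
        calc Fintype.card σ * (2 * C) + 3 ≤ Fintype.card σ * (2 * C) + C := by omega
          _ = (2 * Fintype.card σ + 1) * C := by ring
          _ = (2 * Fintype.card σ + 1) ^ k * (2 * Fintype.card σ + 1) * (3 * (D + 1)) := by
            rw [hC]; ring
          _ ≤ _ := le_rfl

variable {A : Type}

open Classical in
theorem reach_eval (N : NFA A σ) (stp : σ → σ → B → Bool) (dist : ℕ → ℕ) (g : ℕ → B)
    (u : List A) :
    ∀ (k i len : ℕ) (p q : σ), len ≤ 2 ^ k → i + len ≤ u.length →
      (∀ m (hm : m < u.length) s s', i ≤ m → m < i + len →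
        (stp s s' (g (dist m)) = true ↔ s' ∈ N.step s u[m])) →
      ((reach stp dist k i len p q).eval g = true ↔
        q ∈ N.evalFrom {p} ((u.drop i).take len)) := by
  intro k
  have hone : ∀ (i : ℕ) (hi : i < u.length), (u.drop i).take 1 = [u[i]] := by
    intro i hi
    rw [List.drop_eq_getElem_cons hi]
    rfl
  induction k with
  | zero =>
    intro i len p q hlen hle h
    unfold reach
    split_ifs with h0
    · subst h0
      simp only [eval_const, decide_eq_true_eq, List.take_zero, NFA.evalFrom_nil,
        Set.mem_singleton_iff]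
      exact eq_comm
    · have h1 : len = 1 := by simp at hlen; omega
      subst h1
      rw [hone i (by omega), NFA.evalFrom_singleton, NFA.stepSet_singleton]
      exact h i (by omega) p q le_rfl (by omega)
  | succ k ih =>
    intro i len p q hlen hle h
    have h2 : 2 ^ (k + 1) = 2 * 2 ^ k := by rw [pow_succ]; ring
    unfold reach
    split_ifs with h0 h1
    · subst h0
      simp only [eval_const, decide_eq_true_eq, List.take_zero, NFA.evalFrom_nil,
        Set.mem_singleton_iff]
      exact eq_comm
    · subst h1
      rw [hone i (by omega), NFA.evalFrom_singleton, NFA.stepSet_singleton]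
      exact h i (by omega) p q le_rfl (by omega)
    · rw [eval_bigOr]
      have hsplit : (u.drop i).take len = (u.drop i).take (len / 2) ++
          (u.drop (i + len / 2)).take (len - len / 2) := by
        have e1 : len = len / 2 + (len - len / 2) := by omega
        conv_lhs => rw [e1]
        rw [List.take_add, List.drop_drop]
      rw [hsplit, NFA.evalFrom_append, NFA.mem_evalFrom_iff_exists]
      simp only [List.mem_map, Finset.mem_toList, Finset.mem_univ, true_and]
      constructor
      · rintro ⟨φ, ⟨s, rfl⟩, hφ⟩
        simp only [eval, Bool.and_eq_true] at hφ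
        refine ⟨s, ?_, ?_⟩
        · exact (ih i (len / 2) p s (by omega) (by omega)
            (fun m hm s s' h3 h4 => h m hm s s' h3 (by omega))).1 hφ.1
        · exact (ih (i + len / 2) (len - len / 2) s q (by omega) (by omega)
            (fun m hm s s' h3 h4 => h m hm s s' (by omega) (by omega))).1 hφ.2
      · rintro ⟨s, hs1, hs2⟩
        refine ⟨_, ⟨s, rfl⟩, ?_⟩
        simp only [eval, Bool.and_eq_true]
        exact ⟨(ih i (len / 2) p s (by omega) (by omega)
            (fun m hm s s' h3 h4 => h m hm s s' h3 (by omega))).2 hs1,
          (ih (i + len / 2) (len - len / 2) s q (by omega) (by omega)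
            (fun m hm s s' h3 h4 => h m hm s s' (by omega) (by omega))).2 hs2⟩

end reach

end Fm

end Pool.Agent.Lib.P0036f5
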