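import Pool.Agent.Lib.P0036f5.Defs

/-!
Runs on frozen cells, exit tables, and their recursion.
-/

namespace Pool.Agent.Lib.P0036f5

open Relation

namespace LA

variable {A : Type} (M : LA A) (st : Bool)

/-- right move in state `p` on the frozen symbol `x` into state `s` -/
def MoveR (p : M.Q) (x : Sym M.W) (s : M.Q) : Prop :=
  ∃ γ, (s, γ, Dir.right) ∈ M.δ p x ∧ (st = true → ∀ γ', x = Sym.sym γ' → γ = γ')

/-- left move in state `p` on the frozen symbol `x` into state `s` -/
def MoveL (p : M.Q) (x : Sym M.W) (s : M.Q) : Prop :=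
  ∃ γ, (s, γ, Dir.left) ∈ M.δ p x ∧ (st = true → ∀ γ', x = Sym.sym γ' → γ = γ')

/-- One move on a frozen tape `x`, from a position `≤ j`. -/
def RS (x : ℕ → Sym M.W) (j : ℕ) (a b : ℕ × M.Q) : Prop :=
  a.1 ≤ j ∧ ((b.1 = a.1 + 1 ∧ M.MoveR st a.2 (x a.1) b.2) ∨
    (b.1 + 1 = a.1 ∧ M.MoveL st a.2 (x a.1) b.2))

/-- From position/state `a` the machine can leave the cells `0,…,j` of the frozen tape to the
right in state `s`. -/
def Exit (x : ℕ → Sym M.W) (j : ℕ) (a : ℕ × M.Q) (s : M.Q) : Prop :=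
  ReflTransGen (M.RS st x j) a (j + 1, s)

/-- The exit table of the cells `0,…,j`. -/
def Tab (x : ℕ → Sym M.W) (j : ℕ) : Set (M.Q × M.Q) := {ps | M.Exit st x j (j, ps.1) ps.2}

/-- Extension of an exit table by one more cell with content `y`. -/
def E (T : Set (M.Q × M.Q)) (y : Sym M.W) : Set (M.Q × M.Q) :=
  {ps | ∃ p', ReflTransGen (fun a b => ∃ c, M.MoveL st a y c ∧ (c, b) ∈ T) ps.1 p' ∧
    M.MoveR st p' y ps.2}

variable {M st}

theorem exit_refl_iff {x : ℕ → Sym M.W} {j : ℕ} {q s : M.Q} :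
    M.Exit st x j (j + 1, q) s ↔ q = s := by
  constructor
  · intro h
    rcases ReflTransGen.cases_head h with h | ⟨c, h, _⟩
    · exact (Prod.mk.inj h).2
    · have := h.1
      simp only at this
      omega
  · rintro rfl; exact ReflTransGen.refl

theorem Exit.head {x : ℕ → Sym M.W} {j : ℕ} {a b : ℕ × M.Q} {s : M.Q} (h : M.RS st x j a b)
    (h' : M.Exit st x j b s) : M.Exit st x j a s := ReflTransGen.head h h'

theorem RS.mono {x : ℕ → Sym M.W} {j k : ℕ} (hjk : j ≤ k) {a b : ℕ × M.Q}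
    (h : M.RS st x j a b) : M.RS st x k a b := ⟨h.1.trans hjk, h.2⟩

theorem RS.congr {x y : ℕ → Sym M.W} {j : ℕ} (hxy : ∀ i ≤ j, x i = y i) {a b : ℕ × M.Q}
    (h : M.RS st x j a b) : M.RS st y j a b := by
  refine ⟨h.1, ?_⟩
  rw [← hxy _ h.1]
  exact h.2

theorem Exit.congr {x y : ℕ → Sym M.W} {j : ℕ} (hxy : ∀ i ≤ j, x i = y i) {a : ℕ × M.Q}
    {s : M.Q} (h : M.Exit st x j a s) : M.Exit st y j a s :=
  ReflTransGen.mono (fun _ _ h => RS.congr hxy h) _ _ h

theorem tab_congr {x y : ℕ → Sym M.W} {j : ℕ} (hxy : ∀ i ≤ j, x i = y i) :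
    M.Tab st x j = M.Tab st y j := by
  ext ps
  exact ⟨fun h => Exit.congr hxy h, fun h => Exit.congr (fun i hi => (hxy i hi).symm) h⟩

/-- Splitting a run at the first arrival at cell `j+1`. -/
theorem exit_succ_aux {x : ℕ → Sym M.W} {j : ℕ} {a : ℕ × M.Q} {s : M.Q}
    (h : M.Exit st x (j + 1) a s) (ha : a.1 ≤ j + 1) :
    ∃ r, M.Exit st x j a r ∧ (r, s) ∈ M.E st (M.Tab st x j) (x (j + 1)) := by
  unfold Exit at h
  induction h using ReflTransGen.head_induction_on with
  | refl => simp only at ha; omega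
  | @head a b hab hbs ih =>
    rcases Nat.lt_or_ge a.1 (j + 1) with h1 | h1
    · -- still inside
      have hb : b.1 ≤ j + 1 := by
        rcases hab.2 with ⟨h, _⟩ | ⟨h, _⟩ <;> omega
      obtain ⟨r, hr, hrs⟩ := ih hb
      refine ⟨r, Exit.head ⟨by omega, hab.2⟩ hr, hrs⟩
    · have ha1 : a.1 = j + 1 := by omega
      obtain ⟨ah, aq⟩ := a
      simp only at ha1
      subst ha1
      refine ⟨aq, exit_refl_iff.2 rfl, ?_⟩
      rcases hab.2 with ⟨h2, h3⟩ | ⟨h2, h3⟩
      · -- right move: leaves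
        simp only at h2 h3
        have : b = (j + 1 + 1, b.2) := by rw [← h2]
        have hq : b.2 = s := by
          have h5 : M.Exit st x (j + 1) (j + 1 + 1, b.2) s := by rw [← this]; exact hbs
          exact exit_refl_iff.1 h5
        rw [← hq]
        exact ⟨aq, ReflTransGen.refl, h3⟩
      · simp only at h2 h3
        have hb1 : b.1 = j := by omega
        obtain ⟨r, hr, p', hp, hm⟩ := ih (by omega)
        refine ⟨p', ReflTransGen.head ⟨b.2, h3, ?_⟩ hp, hm⟩
        have : b = (j, b.2) := by rw [← hb1]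
        rw [this] at hr
        exact hr

theorem tab_zero (x : ℕ → Sym M.W) : M.Tab st x 0 = M.E st ∅ (x 0) := by
  ext ⟨p, s⟩
  constructor
  · intro h
    rcases ReflTransGen.cases_head h with h | ⟨c, h, h'⟩
    · have := (Prod.mk.inj h).1
      simp at this
    · rcases h.2 with ⟨h2, h3⟩ | ⟨h2, h3⟩
      · simp only at h2 h3
        have hc : c = (0 + 1, c.2) := by rw [← h2]
        rw [hc] at h'
        have := exit_refl_iff.1 h'
        subst this
        exact ⟨p, ReflTransGen.refl, h3⟩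
      · simp only at h2
        omega
  · rintro ⟨p', h, hm⟩
    have : p = p' := by
      rcases ReflTransGen.cases_head h with h | ⟨c, ⟨_, _, h⟩, _⟩
      · exact h
      · exact absurd h (by simp)
    subst this
    exact ReflTransGen.single ⟨le_rfl, Or.inl ⟨rfl, hm⟩⟩

theorem exit_succ_of_E {x : ℕ → Sym M.W} {j : ℕ} {p s : M.Q}
    (h : (p, s) ∈ M.E st (M.Tab st x j) (x (j + 1))) : M.Exit st x (j + 1) (j + 1, p) s := by
  obtain ⟨p', h, hm⟩ := h
  simp only at h hm
  induction h using ReflTransGen.head_induction_on with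
  | refl => exact ReflTransGen.single ⟨le_rfl, Or.inl ⟨rfl, hm⟩⟩
  | @head a b hab _ ih =>
    obtain ⟨c, hc, hcb⟩ := hab
    refine ReflTransGen.head (b := (j, c)) ⟨le_rfl, Or.inr ⟨rfl, hc⟩⟩ ?_
    refine ReflTransGen.trans (b := (j + 1, b)) ?_ ih
    exact ReflTransGen.mono (fun _ _ h => RS.mono (Nat.le_succ j) h) _ _ hcb

theorem tab_succ (x : ℕ → Sym M.W) (j : ℕ) :
    M.Tab st x (j + 1) = M.E st (M.Tab st x j) (x (j + 1)) := by
  ext ⟨p, s⟩
  constructor
  · intro h
    obtain ⟨r, hr, hrs⟩ := exit_succ_aux h le_rfl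
    have := exit_refl_iff.1 hr
    subst this
    exact hrs
  · exact exit_succ_of_E

theorem exit_succ_iff {x : ℕ → Sym M.W} {j : ℕ} {a : ℕ × M.Q} {s : M.Q} (ha : a.1 ≤ j + 1) :
    M.Exit st x (j + 1) a s ↔ ∃ r, M.Exit st x j a r ∧ (r, s) ∈ M.Tab st x (j + 1) := by
  constructor
  · intro h
    obtain ⟨r, hr, hrs⟩ := exit_succ_aux h ha
    exact ⟨r, hr, by rw [tab_succ]; exact hrs⟩
  · rintro ⟨r, hr, hrs⟩
    exact ReflTransGen.trans (ReflTransGen.mono (fun _ _ h => RS.mono (Nat.le_succ j) h) _ _ hr) hrs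

/-! ### Lifting frozen runs to configurations -/

open Classical in
/-- A frozen run is a run of the machine: all input cells among `1,…,j` have been visited. -/
theorem lift_frozen {n j : ℕ} (hj : j ≤ n + 1) {x : ℕ → Sym M.W} {a b : ℕ × M.Q}
    (h : ReflTransGen (M.RS st x j) a b) :
    ∀ c : Cfg M, c.head = a.1 → c.state = a.2 → c.tape = x →
      (∀ i, 1 ≤ i → i ≤ n → i ≤ j → i ∈ c.visited) →
      ∃ c' : Cfg M, ReflTransGen (M.Step st n) c c' ∧ c'.head = b.1 ∧ c'.state = b.2 ∧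
        c'.tape = x ∧ (∀ i, i ∈ c'.visited ↔ i ∈ c.visited ∨ (i ∈ c'.visited ∧ i ≤ j)) ∧
        c.visited ⊆ c'.visited ∧ (∀ i, 1 ≤ i → i ≤ n → (i ∈ c'.visited ↔ i ∈ c.visited)) := by
  induction h using ReflTransGen.head_induction_on with
  | refl =>
    intro c h1 h2 h3 h4
    exact ⟨c, ReflTransGen.refl, h1, h2, h3, fun i => by tauto, subset_rfl, fun i _ _ => Iff.rfl⟩
  | @head a b hab _ ih =>
    intro c h1 h2 h3 h4
    obtain ⟨hle, hmove⟩ := hab
    have htape : ∀ γ : M.W, (if 1 ≤ c.head ∧ c.head ≤ n ∧ c.head ∉ c.visited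
        then Function.update c.tape c.head (Sym.sym γ) else c.tape) = c.tape := by
      intro γ
      rw [if_neg]
      rintro ⟨u, v, w⟩
      exact w (h4 _ u v (by rw [h1]; exact hle))
    -- the next configuration
    have step : ∀ γ (c1 : Cfg M), c1.state = b.2 → c1.head = b.1 → c1.tape = c.tape →
        c1.visited = insert c.head c.visited →
        (st = true → ∀ γ', x a.1 = Sym.sym γ' → γ = γ') →
        (((c1.state, γ, Dir.right) ∈ M.δ c.state (c.tape c.head) ∧ c1.head = c.head + 1) ∨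
        ((c1.state, γ, Dir.left) ∈ M.δ c.state (c.tape c.head) ∧ c1.head + 1 = c.head)) →
        M.Step st n c c1 := by
      intro γ c1 _ _ ht hv hst hm
      refine ⟨by rw [h1]; omega, γ, fun hs _ => by rw [h3, h1]; exact hst hs, hm, ?_, hv⟩
      rw [htape]
      exact ht
    have hc1 : ∃ c1 : Cfg M, M.Step st n c c1 ∧ c1.head = b.1 ∧ c1.state = b.2 ∧ c1.tape = x ∧
        c1.visited = insert c.head c.visited := by
      rcases hmove with ⟨hb, γ, hγ, hs⟩ | ⟨hb, γ, hγ, hs⟩
      · refine ⟨⟨b.2, b.1, c.tape, insert c.head c.visited⟩, ?_, rfl, rfl, h3, rfl⟩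
        refine step γ _ rfl rfl rfl rfl hs (Or.inl ⟨?_, ?_⟩)
        · rw [h1, h2, h3]; exact hγ
        · simp only; rw [hb, h1]
      · refine ⟨⟨b.2, b.1, c.tape, insert c.head c.visited⟩, ?_, rfl, rfl, h3, rfl⟩
        refine step γ _ rfl rfl rfl rfl hs (Or.inr ⟨?_, ?_⟩)
        · rw [h1, h2, h3]; exact hγ
        · simp only; rw [hb, h1]
    obtain ⟨c1, hs, k1, k2, k3, k4⟩ := hc1
    obtain ⟨c', g1, g2, g3, g4, g5, g6, g7⟩ := ih c1 k1 k2 k3 (by
      intro i u v w
      rw [k4]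
      exact Or.inr (h4 i u v w))
    refine ⟨c', ReflTransGen.head hs g1, g2, g3, g4, ?_, ?_, ?_⟩
    · intro i
      constructor
      · intro hi
        rcases (g5 i).1 hi with h | h
        · rw [k4] at h
          rcases h with h | h
          · exact Or.inr ⟨hi, by rw [h, h1]; exact hle⟩
          · exact Or.inl h
        · exact Or.inr h
      · rintro (h | h)
        · exact g6 (by rw [k4]; exact Or.inr h)
        · exact h.1
    · exact subset_trans (by rw [k4]; exact Set.subset_insert _ _) g6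
    · intro i u v
      rw [g7 i u v, k4]
      constructor
      · rintro (h | h)
        · rw [h]; exact h4 _ (by rw [← h]; exact u) (by rw [← h]; exact v) (by rw [h1]; exact hle)
        · exact h
      · exact fun h => Or.inr h

end LA

end Pool.Agent.Lib.P0036f5
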