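import Pool.Agent.Lib.P0036f5.Formula

/-!
From nondeterministic finite automata to deterministic 1-limited automata.
-/

namespace Pool.Agent.Lib.P0036f5

open Relation

open Classical

set_option linter.unusedSectionVars false

namespace DLA

/-- work symbols: a dummy symbol, and letters with an optional mark -/
abbrev WS' (A : Type) : Type := Option (A × Option Bool)

section

variable {A σ : Type} [Fintype σ] (N : NFA A σ) {n : ℕ} (e : σ ≃ Fin n) (K : ℕ)

/-- Test of a step of the automaton on the letter stored in a tape symbol. -/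
noncomputable def stp (s s' : σ) : Sym (WS' A) → Bool
  | .sym (some (a, _)) => decide (s' ∈ N.step s a)
  | _ => false

/-- Test of the mark of a tape symbol. -/
def mark : Sym (WS' A) → Bool
  | .sym (some (_, some b)) => b
  | _ => false

/-- The formula computing the bit to be written at offset `j` of a block. -/
noncomputable def Phi (lj : Bool × Fin n) : Fm (Sym (WS' A)) :=
  match lj.1 with
  | false => Fm.const (decide (e.symm lj.2 ∈ N.start))
  | true => Fm.bigOr ((Finset.univ : Finset σ).toList.map (fun k =>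
      Fm.and (Fm.lit (n + lj.2 - e k - 1) mark)
        (Fm.reach (stp N) (fun i => n + lj.2 - i - 1) K 0 n k (e.symm lj.2))))

/-- The formula deciding acceptance when the right end-marker is met at offset `j`. -/
noncomputable def Psi (lj : Bool × Fin n) : Fm (Sym (WS' A)) :=
  match lj.1 with
  | false => Fm.bigOr ((Finset.univ : Finset σ).toList.map (fun k =>
      Fm.and (Fm.const (decide (k ∈ N.start)))
        (Fm.bigOr ((Finset.univ : Finset σ).toList.map (fun f =>
          Fm.and (Fm.const (decide (f ∈ N.accept)))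
            (Fm.reach (stp N) (fun i => lj.2 - i) K 0 lj.2 k f))))))
  | true => Fm.bigOr ((Finset.univ : Finset σ).toList.map (fun k =>
      Fm.and (Fm.lit (n + lj.2 - e k) mark)
        (Fm.bigOr ((Finset.univ : Finset σ).toList.map (fun f =>
          Fm.and (Fm.const (decide (f ∈ N.accept)))
            (Fm.reach (stp N) (fun i => n + lj.2 - i) K 0 (n + lj.2) k f))))))

/-- Control states of the deterministic 1-limited automaton. -/
inductive St : Type
  | arrive : Bool × Fin n → Bool → St
  | bounce : Bool × Fin n → St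
  | bounceF : Bool × Fin n → St
  | ev : (lj : Bool × Fin n) → (Phi N e K lj).Nd → St
  | done : Bool × Fin n → Bool → St
  | evF : (lj : Bool × Fin n) → (Psi N e K lj).Nd → St
  | doneF : Bool → St
  | fin : Bool → St

/-- `St` as a sum type. -/
def stEquiv : St N e K ≃
    (((Bool × Fin n) × Bool) ⊕ (Bool × Fin n) ⊕ (Bool × Fin n) ⊕
      (Σ lj : Bool × Fin n, (Phi N e K lj).Nd) ⊕ ((Bool × Fin n) × Bool) ⊕
      (Σ lj : Bool × Fin n, (Psi N e K lj).Nd) ⊕ Bool ⊕ Bool) where
  toFun
    | .arrive lj b => .inl (lj, b)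
    | .bounce lj => .inr (.inl lj)
    | .bounceF lj => .inr (.inr (.inl lj))
    | .ev lj ν => .inr (.inr (.inr (.inl ⟨lj, ν⟩)))
    | .done lj b => .inr (.inr (.inr (.inr (.inl (lj, b)))))
    | .evF lj ν => .inr (.inr (.inr (.inr (.inr (.inl ⟨lj, ν⟩)))))
    | .doneF b => .inr (.inr (.inr (.inr (.inr (.inr (.inl b))))))
    | .fin b => .inr (.inr (.inr (.inr (.inr (.inr (.inr b))))))
  invFun
    | .inl (lj, b) => .arrive lj b
    | .inr (.inl lj) => .bounce lj
    | .inr (.inr (.inl lj)) => .bounceF lj
    | .inr (.inr (.inr (.inl ⟨lj, ν⟩))) => .ev lj ν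
    | .inr (.inr (.inr (.inr (.inl (lj, b))))) => .done lj b
    | .inr (.inr (.inr (.inr (.inr (.inl ⟨lj, ν⟩))))) => .evF lj ν
    | .inr (.inr (.inr (.inr (.inr (.inr (.inl b)))))) => .doneF b
    | .inr (.inr (.inr (.inr (.inr (.inr (.inr b)))))) => .fin b
  left_inv := by rintro (_ | _ | _ | _ | _ | _ | _ | _) <;> rfl
  right_inv := by
    rintro (⟨lj, b⟩ | lj | lj | ⟨lj, ν⟩ | ⟨lj, b⟩ | ⟨lj, ν⟩ | b | b) <;> rfl

noncomputable instance : Fintype (St N e K) := Fintype.ofEquiv _ (stEquiv N e K).symm

theorem card_St : Fintype.card (St N e K) = 12 * n + 4 +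
    ∑ lj : Bool × Fin n, ((Phi N e K lj).cost + (Psi N e K lj).cost) := by
  rw [Fintype.card_congr (stEquiv N e K)]
  simp only [Fintype.card_sum, Fintype.card_prod, Fintype.card_bool, Fintype.card_fin,
    Fintype.card_sigma, Fm.card_Nd, Finset.sum_add_distrib]
  ring

/-- the class of the next position -/
def next [NeZero n] (lj : Bool × Fin n) : Bool × Fin n :=
  if h : (lj.2 : ℕ) + 1 < n then (lj.1, ⟨lj.2 + 1, h⟩) else (true, 0)

/-- the symbol written back on frozen cells -/
def wb : Sym (WS' A) → WS' A
  | .sym γ => γ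
  | _ => none

/-- The (partial) transition function. -/
noncomputable def nxt [NeZero n] : St N e K → Sym (WS' A) → Option (St N e K × WS' A × Dir)
  | .arrive lj b, .sym (some (a, none)) => some (.bounce (next lj), some (a, some b), .left)
  | .arrive lj _, .rend => some (.bounceF lj, none, .left)
  | .arrive _ _, _ => none
  | .bounce lj, x => some (.ev lj (Phi N e K lj).entry, wb x, .right)
  | .bounceF lj, x => some (.evF lj (Psi N e K lj).entry, wb x, .right)
  | .ev lj ν, x => some (((Phi N e K lj).tr (St.ev lj) (.done lj true) (.done lj false) ν x).1,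
      wb x, ((Phi N e K lj).tr (St.ev lj) (.done lj true) (.done lj false) ν x).2)
  | .done lj b, x => some (.arrive lj b, wb x, .right)
  | .evF lj ν, x => some (((Psi N e K lj).tr (St.evF lj) (.doneF true) (.doneF false) ν x).1,
      wb x, ((Psi N e K lj).tr (St.evF lj) (.doneF true) (.doneF false) ν x).2)
  | .doneF b, x => some (.fin b, wb x, .right)
  | .fin _, _ => none

/-- The deterministic 1-limited automaton. -/
noncomputable def dla [Fintype A] [NeZero n] : LA A where
  Q := St N e K
  W := WS' A
  letter := ⟨fun a => some (a, none), fun a b h => by simpa using h⟩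
  δ := fun q x => (nxt N e K q x).toFinset
  start := .arrive (false, 0) (decide (e.symm 0 ∈ N.start))
  final := {.fin true}

theorem dla_deterministic [Fintype A] [NeZero n] : (dla N e K).Deterministic := by
  intro q x
  change (nxt N e K q x).toFinset.card ≤ 1
  rw [Option.card_toFinset]
  cases nxt N e K q x <;> simp

end

/-! ### Simulation -/

section sim

variable {A σ : Type} [Fintype σ] [Fintype A] (N : NFA A σ) {n : ℕ} [NeZero n]
  (e : σ ≃ Fin n) (K : ℕ)

/-- class of a position -/
def cls (n : ℕ) [NeZero n] (P : ℕ) : Bool × Fin n :=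
  (decide (n ≤ P), ⟨P % n, Nat.mod_lt _ (NeZero.pos n)⟩)

theorem cls_succ (P : ℕ) : cls n (P + 1) = next (cls n P) := by
  have hn : 0 < n := NeZero.pos n
  have hlt : P % n < n := Nat.mod_lt _ hn
  unfold next cls
  simp only
  split_ifs with h
  · have h1 : (P + 1) % n = P % n + 1 := by
      rw [Nat.add_mod, Nat.mod_eq_of_lt (a := P % n + 1 % n)]
      · rcases Nat.lt_or_ge 1 n with h2 | h2
        · rw [Nat.mod_eq_of_lt h2]
        · omega
      · rcases Nat.lt_or_ge 1 n with h2 | h2
        · rw [Nat.mod_eq_of_lt h2]; exact h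
        · omega
    have h2 : (n ≤ P + 1) ↔ (n ≤ P) := by
      constructor
      · intro h3
        by_contra h4
        have : P + 1 = n := by omega
        have h5 : P % n = P := Nat.mod_eq_of_lt (by omega)
        omega
      · intro h3; omega
    simp only [h1, decide_eq_decide.2 h2]
  · have h1 : P % n + 1 = n := by omega
    have h2 : (P + 1) % n = 0 := by
      rw [← Nat.div_add_mod P n, Nat.add_assoc, h1]
      simp
    have h3 : n ≤ P + 1 := by
      have := Nat.mod_le P n
      omega
    simp only [h2, h3, decide_true]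
    rfl

/-- the reachable set after `k` letters -/
def R (w : List A) (k : ℕ) : Set σ := N.evalFrom N.start (w.take k)

/-- the bit written in cell `P + 1` -/
noncomputable def bit (w : List A) (P : ℕ) : Bool :=
  decide (e.symm ⟨P % n, Nat.mod_lt _ (NeZero.pos n)⟩ ∈ R N w (P / n * n))

variable {N e K}

theorem step_iff {q : St N e K} {x : Sym (WS' A)} {r : St N e K × Dir} {γ : WS' A}
    (h : nxt N e K q x = some (r.1, γ, r.2)) :
    (r.1, γ, r.2) ∈ (dla N e K).δ q x := by
  change _ ∈ (nxt N e K q x).toFinset
  rw [Option.mem_toFinset, h]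
  rfl

/-- frozen moves write back the scanned symbol -/
theorem step_wb {q : St N e K} {x : Sym (WS' A)} {r : St N e K × Dir}
    (h : nxt N e K q x = some (r.1, wb x, r.2)) (st : Bool) :
    ∃ γ : WS' A, (r.1, γ, r.2) ∈ (dla N e K).δ q x ∧
      (st = true → ∀ γ', x = Sym.sym γ' → γ = γ') :=
  ⟨wb x, step_iff h, fun _ γ' hx => by rw [hx]; rfl⟩

/-- Value of the bit formula. -/
theorem eval_Phi (hK : 2 * n ≤ 2 ^ K) {w : List A} {P : ℕ} (hP : P ≤ w.length)
    {x : ℕ → Sym (WS' A)}
    (hx : ∀ i (hi : i < w.length), i < P → x (i + 1) = Sym.sym (some (w[i], some (bit N e w i)))) :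
    (Phi N e K (cls n P)).eval (fun d => x (P - d)) = bit N e w P := by
  have hn : 0 < n := NeZero.pos n
  rcases Nat.lt_or_ge P n with hlt | hge
  · have h1 : cls n P = (false, ⟨P % n, Nat.mod_lt _ hn⟩) := by
      unfold cls
      rw [decide_eq_false (by omega)]
    rw [h1]
    simp only [Phi, Fm.eval_const]
    unfold bit R
    rw [Nat.div_eq_of_lt hlt]
    simp
  · have h1 : cls n P = (true, ⟨P % n, Nat.mod_lt _ hn⟩) := by
      unfold cls
      rw [decide_eq_true hge]
    rw [h1]
    simp only [Phi]
    obtain ⟨t, ht⟩ : ∃ t, P / n = t + 1 := by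
      have : 1 ≤ P / n := (Nat.one_le_div_iff hn).2 hge
      exact ⟨P / n - 1, by omega⟩
    have hdm : P = t * n + n + P % n := by
      have := Nat.div_add_mod P n
      rw [ht, Nat.mul_add, Nat.mul_one, Nat.mul_comm] at this
      omega
    set j := P % n with hj
    have hjn : j < n := Nat.mod_lt _ hn
    rw [Bool.eq_iff_iff, Fm.eval_bigOr]
    unfold bit
    rw [decide_eq_true_eq, ht]
    have hset : R N w ((t + 1) * n) = N.evalFrom (R N w (t * n)) ((w.drop (t * n)).take n) := by
      unfold R
      rw [← NFA.evalFrom_append]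
      congr 1
      rw [Nat.succ_mul, List.take_add]
    rw [hset]
    have hcell : ∀ i, i < n → (hi : t * n + i < w.length) →
        x (P - (n + j - i - 1)) = Sym.sym (some (w[t * n + i], some (bit N e w (t * n + i)))) := by
      intro i hin hi
      have : P - (n + j - i - 1) = t * n + i + 1 := by omega
      rw [this]
      exact hx _ hi (by omega)
    have hreach : ∀ k f : σ, (Fm.reach (stp N) (fun i => n + j - i - 1) K 0 n k f).eval
        (fun d => x (P - d)) = true ↔ f ∈ N.evalFrom {k} ((w.drop (t * n)).take n) := by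
      intro k f
      have := Fm.reach_eval N (stp N) (fun i => n + j - i - 1) (fun d => x (P - d))
        (w.drop (t * n)) K 0 n k f (by omega) (by rw [List.length_drop]; omega) (by
          intro m hm s s' _ h2
          rw [List.length_drop] at hm
          rw [hcell m (by omega) (by omega)]
          simp only [stp, decide_eq_true_eq, List.getElem_drop])
      rw [this, List.drop_zero]
    have hbit : ∀ k : σ, (Fm.lit (n + j - e k - 1) mark).eval (fun d => x (P - d)) = true ↔
        k ∈ R N w (t * n) := by
      intro k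
      have hek : (e k : ℕ) < n := (e k).2
      simp only [Fm.eval]
      rw [hcell (e k) hek (by omega)]
      simp only [mark, bit, decide_eq_true_eq]
      have h2 : (t * n + (e k : ℕ)) % n = e k := by
        rw [Nat.mul_comm, Nat.mul_add_mod, Nat.mod_eq_of_lt hek]
      have h3 : (t * n + (e k : ℕ)) / n = t := by
        rw [Nat.mul_comm, Nat.mul_add_div hn, Nat.div_eq_of_lt hek, Nat.add_zero]
      have h4 : e.symm ⟨(t * n + (e k : ℕ)) % n, Nat.mod_lt _ hn⟩ = k := by
        rw [Equiv.symm_apply_eq]
        exact Fin.ext h2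
      rw [h4, h3]
    rw [NFA.mem_evalFrom_iff_exists]
    simp only [List.mem_map, Finset.mem_toList, Finset.mem_univ, true_and]
    constructor
    · rintro ⟨φ, ⟨k, rfl⟩, hφ⟩
      simp only [Fm.eval, Bool.and_eq_true] at hφ
      exact ⟨k, (hbit k).1 hφ.1, (hreach k _).1 hφ.2⟩
    · rintro ⟨k, hk1, hk2⟩
      refine ⟨_, ⟨k, rfl⟩, ?_⟩
      simp only [Fm.eval, Bool.and_eq_true]
      exact ⟨(hbit k).2 hk1, (hreach k _).2 hk2⟩

/-- Value of the acceptance formula. -/
theorem eval_Psi (hK : 2 * n ≤ 2 ^ K) {w : List A} {x : ℕ → Sym (WS' A)}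
    (hx : ∀ i (hi : i < w.length), x (i + 1) = Sym.sym (some (w[i], some (bit N e w i)))) :
    (Psi N e K (cls n w.length)).eval (fun d => x (w.length + 1 - d)) = true ↔
      w ∈ N.accepts := by
  have hn : 0 < n := NeZero.pos n
  have hacc : w ∈ N.accepts ↔ ∃ f, f ∈ N.accept ∧ f ∈ N.evalFrom N.start w := by
    rfl
  rw [hacc]
  rcases Nat.lt_or_ge w.length n with hlt | hge
  · have h1 : cls n w.length = (false, ⟨w.length % n, Nat.mod_lt _ hn⟩) := by
      unfold cls
      rw [decide_eq_false (by omega)]
    rw [h1]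
    simp only [Psi]
    have hj : w.length % n = w.length := Nat.mod_eq_of_lt hlt
    rw [Fm.eval_bigOr]
    have hreach : ∀ k f : σ, (Fm.reach (stp N) (fun i => w.length % n - i) K 0
        (w.length % n) k f).eval (fun d => x (w.length + 1 - d)) = true ↔
        f ∈ N.evalFrom {k} w := by
      intro k f
      rw [hj]
      have := Fm.reach_eval N (stp N) (fun i => w.length - i)
        (fun d => x (w.length + 1 - d)) w K 0 w.length k f (by omega) (by omega) (by
          intro m hm s s' _ h2
          have : w.length + 1 - (w.length - m) = m + 1 := by omega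
          rw [this, hx m hm]
          simp only [stp, decide_eq_true_eq])
      rw [this, List.drop_zero, List.take_length]
    simp only [List.mem_map, Finset.mem_toList, Finset.mem_univ, true_and]
    constructor
    · rintro ⟨φ, ⟨k, rfl⟩, hφ⟩
      simp only [Fm.eval, Bool.and_eq_true, Fm.eval_bigOr, List.mem_map, Finset.mem_toList,
        Finset.mem_univ, true_and, Fm.eval_const, decide_eq_true_eq] at hφ
      obtain ⟨hk, ψ, ⟨f, rfl⟩, hψ⟩ := hφ
      simp only [Fm.eval, Bool.and_eq_true, Fm.eval_const, decide_eq_true_eq] at hψ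
      exact ⟨f, hψ.1, NFA.mem_evalFrom_iff_exists.2 ⟨k, hk, (hreach k f).1 hψ.2⟩⟩
    · rintro ⟨f, hf, hw⟩
      obtain ⟨k, hk, hkf⟩ := NFA.mem_evalFrom_iff_exists.1 hw
      refine ⟨_, ⟨k, rfl⟩, ?_⟩
      simp only [Fm.eval, Bool.and_eq_true, Fm.eval_bigOr, List.mem_map, Finset.mem_toList,
        Finset.mem_univ, true_and, Fm.eval_const, decide_eq_true_eq]
      refine ⟨hk, _, ⟨f, rfl⟩, ?_⟩
      simp only [Fm.eval, Bool.and_eq_true, Fm.eval_const, decide_eq_true_eq]
      exact ⟨hf, (hreach k f).2 hkf⟩
  · have h1 : cls n w.length = (true, ⟨w.length % n, Nat.mod_lt _ hn⟩) := by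
      unfold cls
      rw [decide_eq_true hge]
    rw [h1]
    simp only [Psi]
    obtain ⟨t, ht⟩ : ∃ t, w.length / n = t + 1 := by
      have : 1 ≤ w.length / n := (Nat.one_le_div_iff hn).2 hge
      exact ⟨w.length / n - 1, by omega⟩
    have hdm : w.length = t * n + n + w.length % n := by
      have := Nat.div_add_mod w.length n
      rw [ht, Nat.mul_add, Nat.mul_one, Nat.mul_comm] at this
      omega
    set j := w.length % n with hj
    have hjn : j < n := Nat.mod_lt _ hn
    rw [Fm.eval_bigOr]
    have hcell : ∀ i, i < n + j → (hi : t * n + i < w.length) →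
        x (w.length + 1 - (n + j - i)) =
          Sym.sym (some (w[t * n + i], some (bit N e w (t * n + i)))) := by
      intro i hin hi
      have : w.length + 1 - (n + j - i) = t * n + i + 1 := by omega
      rw [this]
      exact hx _ hi
    have hreach : ∀ k f : σ, (Fm.reach (stp N) (fun i => n + j - i) K 0 (n + j) k f).eval
        (fun d => x (w.length + 1 - d)) = true ↔ f ∈ N.evalFrom {k} (w.drop (t * n)) := by
      intro k f
      have := Fm.reach_eval N (stp N) (fun i => n + j - i) (fun d => x (w.length + 1 - d))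
        (w.drop (t * n)) K 0 (n + j) k f (by omega) (by rw [List.length_drop]; omega) (by
          intro m hm s s' _ h2
          rw [List.length_drop] at hm
          rw [hcell m (by omega) (by omega)]
          simp only [stp, decide_eq_true_eq, List.getElem_drop])
      rw [this, List.drop_zero, List.take_of_length_le (by rw [List.length_drop]; omega)]
    have hbit : ∀ k : σ, (Fm.lit (n + j - e k) mark).eval
        (fun d => x (w.length + 1 - d)) = true ↔ k ∈ R N w (t * n) := by
      intro k
      have hek : (e k : ℕ) < n := (e k).2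
      simp only [Fm.eval]
      rw [hcell (e k) (by omega) (by omega)]
      simp only [mark, bit, decide_eq_true_eq]
      have h2 : (t * n + (e k : ℕ)) % n = e k := by
        rw [Nat.mul_comm, Nat.mul_add_mod, Nat.mod_eq_of_lt hek]
      have h3 : (t * n + (e k : ℕ)) / n = t := by
        rw [Nat.mul_comm, Nat.mul_add_div hn, Nat.div_eq_of_lt hek, Nat.add_zero]
      have h4 : e.symm ⟨(t * n + (e k : ℕ)) % n, Nat.mod_lt _ hn⟩ = k := by
        rw [Equiv.symm_apply_eq]
        exact Fin.ext h2
      rw [h4, h3]
    have hset : N.evalFrom N.start w = N.evalFrom (R N w (t * n)) (w.drop (t * n)) := by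
      unfold R
      rw [← NFA.evalFrom_append, List.take_append_drop]
    rw [hset]
    simp only [List.mem_map, Finset.mem_toList, Finset.mem_univ, true_and]
    constructor
    · rintro ⟨φ, ⟨k, rfl⟩, hφ⟩
      rw [Fm.eval, Bool.and_eq_true, Fm.eval_bigOr] at hφ
      simp only [List.mem_map, Finset.mem_toList, Finset.mem_univ, true_and] at hφ
      obtain ⟨hk, ψ, ⟨f, rfl⟩, hψ⟩ := hφ
      simp only [Fm.eval, Bool.and_eq_true, Fm.eval_const, decide_eq_true_eq] at hψ
      exact ⟨f, hψ.1, NFA.mem_evalFrom_iff_exists.2 ⟨k, (hbit k).1 hk, (hreach k f).1 hψ.2⟩⟩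
    · rintro ⟨f, hf, hw⟩
      obtain ⟨k, hk, hkf⟩ := NFA.mem_evalFrom_iff_exists.1 hw
      refine ⟨_, ⟨k, rfl⟩, ?_⟩
      rw [Fm.eval, Bool.and_eq_true, Fm.eval_bigOr]
      simp only [List.mem_map, Finset.mem_toList, Finset.mem_univ, true_and]
      refine ⟨(hbit k).2 hk, _, ⟨f, rfl⟩, ?_⟩
      simp only [Fm.eval, Bool.and_eq_true, Fm.eval_const, decide_eq_true_eq]
      exact ⟨hf, (hreach k f).2 hkf⟩

/-- Control walks as frozen runs of the automaton. -/
theorem rs_of_ws {st : Bool} {x : ℕ → Sym (WS' A)} {H : ℕ} {a b : ℕ × St N e K}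
    (h : Fm.WS (fun q y (r : St N e K × Dir) => ∃ γ : WS' A, (r.1, γ, r.2) ∈ (dla N e K).δ q y ∧
      (st = true → ∀ γ', y = Sym.sym γ' → γ = γ')) x H a b) :
    (dla N e K).RS st x H a b := by
  obtain ⟨h1, h2⟩ := h
  refine ⟨h1, ?_⟩
  rcases h2 with ⟨h2, γ, h3⟩ | ⟨h2, γ, h3⟩
  · exact Or.inl ⟨h2, γ, h3⟩
  · exact Or.inr ⟨h2, γ, h3⟩

theorem walk_Phi {st : Bool} {x : ℕ → Sym (WS' A)} {H D : ℕ} (lj : Bool × Fin n)
    (hD : (Phi N e K lj).Dist D) (hDH : D < H) (b : Bool)
    (hb : (Phi N e K lj).eval (fun d => x (H - d)) = b) :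
    ReflTransGen ((dla N e K).RS st x H) (H, (St.ev lj (Phi N e K lj).entry : St N e K))
      (H, (St.done lj b : St N e K)) := by
  have h := Fm.walk (fun q y (r : St N e K × Dir) => ∃ γ : WS' A,
      (r.1, γ, r.2) ∈ (dla N e K).δ q y ∧ (st = true → ∀ γ', y = Sym.sym γ' → γ = γ'))
    x H (Phi N e K lj) D hD hDH (St.ev lj) (.done lj true) (.done lj false) (by
      intro ν s
      exact step_wb rfl st)
  have h2 : ReflTransGen ((dla N e K).RS st x H) (H, (St.ev lj (Phi N e K lj).entry : St N e K))
      (H, (if (Phi N e K lj).eval (fun d => x (H - d)) = true then St.done lj true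
      else St.done lj false : St N e K)) :=
    ReflTransGen.mono (fun a b h => rs_of_ws (N := N) (e := e) (K := K) (x := x) (H := H)
      (a := a) (b := b) h) _ _ h
  cases b with
  | true => rwa [if_pos hb] at h2
  | false => rwa [if_neg (by rw [hb]; exact Bool.false_ne_true)] at h2

theorem walk_Psi {st : Bool} {x : ℕ → Sym (WS' A)} {H D : ℕ} (lj : Bool × Fin n)
    (hD : (Psi N e K lj).Dist D) (hDH : D < H) (b : Bool)
    (hb : (Psi N e K lj).eval (fun d => x (H - d)) = b) :
    ReflTransGen ((dla N e K).RS st x H) (H, (St.evF lj (Psi N e K lj).entry : St N e K))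
      (H, (St.doneF b : St N e K)) := by
  have h := Fm.walk (fun q y (r : St N e K × Dir) => ∃ γ : WS' A,
      (r.1, γ, r.2) ∈ (dla N e K).δ q y ∧ (st = true → ∀ γ', y = Sym.sym γ' → γ = γ'))
    x H (Psi N e K lj) D hD hDH (St.evF lj) (.doneF true) (.doneF false) (by
      intro ν s
      exact step_wb rfl st)
  have h2 : ReflTransGen ((dla N e K).RS st x H) (H, (St.evF lj (Psi N e K lj).entry : St N e K))
      (H, (if (Psi N e K lj).eval (fun d => x (H - d)) = true then St.doneF true
      else St.doneF false : St N e K)) :=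
    ReflTransGen.mono (fun a b h => rs_of_ws (N := N) (e := e) (K := K) (x := x) (H := H)
      (a := a) (b := b) h) _ _ h
  cases b with
  | true => rwa [if_pos hb] at h2
  | false => rwa [if_neg (by rw [hb]; exact Bool.false_ne_true)] at h2

/-- Distances in the bit formula. -/
theorem dist_Phi (hK : 2 * n ≤ 2 ^ K) (lj : Bool × Fin n) :
    (Phi N e K lj).Dist (if lj.1 then n + lj.2 - 1 else 0) := by
  have hn : 0 < n := NeZero.pos n
  obtain ⟨l, j⟩ := lj
  cases l with
  | false => exact Fm.dist_const _ _
  | true =>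
    simp only [Phi, if_true]
    apply Fm.dist_bigOr
    intro φ hφ
    simp only [List.mem_map] at hφ
    obtain ⟨k, _, rfl⟩ := hφ
    refine ⟨?_, ?_⟩
    · change n + (j : ℕ) - e k - 1 ≤ _
      omega
    · exact Fm.reach_dist _ _ _ _ _ _ _ _ (by omega) (fun m _ _ => by omega)

/-- Distances in the acceptance formula. -/
theorem dist_Psi (hK : 2 * n ≤ 2 ^ K) (lj : Bool × Fin n) :
    (Psi N e K lj).Dist (if lj.1 then n + lj.2 else lj.2) := by
  have hn : 0 < n := NeZero.pos n
  obtain ⟨l, j⟩ := lj
  have hj : (j : ℕ) < n := j.2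
  cases l with
  | false =>
    simp only [Psi]
    apply Fm.dist_bigOr
    intro φ hφ
    simp only [List.mem_map] at hφ
    obtain ⟨k, _, rfl⟩ := hφ
    refine ⟨Fm.dist_const _ _, Fm.dist_bigOr ?_⟩
    intro ψ hψ
    simp only [List.mem_map] at hψ
    obtain ⟨f, _, rfl⟩ := hψ
    refine ⟨Fm.dist_const _ _, ?_⟩
    exact Fm.reach_dist _ _ _ _ _ _ _ _ (by omega) (fun m _ _ => by simp)
  | true =>
    simp only [Psi, if_true]
    apply Fm.dist_bigOr
    intro φ hφ
    simp only [List.mem_map] at hφ
    obtain ⟨k, _, rfl⟩ := hφ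
    refine ⟨?_, Fm.dist_bigOr ?_⟩
    · change n + (j : ℕ) - e k ≤ _
      omega
    · intro ψ hψ
      simp only [List.mem_map] at hψ
      obtain ⟨f, _, rfl⟩ := hψ
      refine ⟨Fm.dist_const _ _, ?_⟩
      exact Fm.reach_dist _ _ _ _ _ _ _ _ (by omega) (fun m _ _ => by omega)

/-- The automaton after `P` letters. -/
theorem reach_pos (st : Bool) (hK : 2 * n ≤ 2 ^ K) (w : List A) : ∀ P, P ≤ w.length →
    ∃ c : LA.Cfg (dla N e K), ReflTransGen ((dla N e K).Step st w.length) ((dla N e K).init w) c ∧
      c.head = P + 1 ∧ c.state = (St.arrive (cls n P) (bit N e w P) : St N e K) ∧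
      LA.Stage w P c ∧
      ∀ i (hi : i < w.length), i < P →
        c.tape (i + 1) = Sym.sym (some (w[i], some (bit N e w i)) : WS' A) := by
  have hn : 0 < n := NeZero.pos n
  intro P
  induction P with
  | zero =>
    intro _
    refine ⟨_, ReflTransGen.refl, rfl, ?_, ?_, fun i _ h => absurd h (by omega)⟩
    · change (St.arrive (false, 0) (decide (e.symm 0 ∈ N.start)) : St N e K) = _
      have h1 : cls n 0 = (false, 0) := by
        unfold cls
        rw [decide_eq_false (by omega)]
        congr 1
      have h2 : bit N e w 0 = decide (e.symm 0 ∈ N.start) := by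
        unfold bit R
        simp only [Nat.zero_div, Nat.zero_mul, List.take_zero, NFA.evalFrom_nil]
        congr 1
      rw [h1, h2]
    · refine ⟨Nat.zero_le _, ?_, rfl, fun i _ => rfl⟩
      intro i h1 h2
      simp only [LA.init, Set.mem_empty_iff_false, false_iff]
      omega
  | succ P ih =>
    intro hP
    have hP' : P < w.length := hP
    obtain ⟨c, hc, hhead, hstate, hst, htape⟩ := ih (by omega)
    have hnv : c.head ∉ c.visited := by
      rw [hhead, hst.vis _ (by omega) (by omega)]; omega
    have hsym : c.tape c.head = Sym.sym (some (w[P], none) : WS' A) := by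
      rw [hhead, hst.tape _ (Nat.lt_succ_self P), LA.initTape_getElem hP']
      rfl
    obtain ⟨x', hx'⟩ : ∃ x' : ℕ → Sym (dla N e K).W, x' = 
      Function.update c.tape c.head (Sym.sym (some (w[P], some (bit N e w P)) : WS' A)) := ⟨_, rfl⟩
    have hx's : x' (P + 1) = Sym.sym (some (w[P], some (bit N e w P)) : WS' A) := by
      rw [hx', ← hhead]
      exact Function.update_self _ _ _
    have hx'n : ∀ i, i ≠ P + 1 → x' i = c.tape i := by
      intro i hi
      rw [hx']
      exact Function.update_of_ne (by rw [hhead]; exact hi) _ _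
    let c1 : LA.Cfg (dla N e K) :=
      ⟨(St.bounce (next (cls n P)) : St N e K), P, x', insert c.head c.visited⟩
    have hstep : (dla N e K).Step st w.length c c1 := by
      refine ⟨by omega, (some (w[P], some (bit N e w P)) : WS' A), fun _ h => absurd h hnv,
        Or.inr ⟨?_, hhead.symm⟩, ?_, rfl⟩
      · rw [hsym, hstate]
        exact step_iff (r := ((St.bounce (next (cls n P)) : St N e K), Dir.left)) rfl
      · rw [if_pos ⟨by omega, by omega, hnv⟩]
        exact hx'
    have hx'P : ∀ i (hi : i < w.length), i < P + 1 →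
        x' (i + 1) = Sym.sym (some (w[i], some (bit N e w i)) : WS' A) := by
      intro i hi hiP
      rcases Nat.lt_or_ge i P with h | h
      · rw [hx'n (i + 1) (by omega)]
        exact htape i hi h
      · have : i = P := by omega
        subst this
        exact hx's
    -- frozen path
    obtain ⟨lj, hlj⟩ : ∃ lj, lj = cls n (P + 1) := ⟨_, rfl⟩
    have hlj' : next (cls n P) = lj := by rw [hlj]; exact (cls_succ P).symm
    have hval : (Phi N e K lj).eval (fun d => x' (P + 1 - d)) = bit N e w (P + 1) := by
      rw [hlj]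
      exact eval_Phi hK hP hx'P
    have hDlt : (if lj.1 then n + (lj.2 : ℕ) - 1 else 0) < P + 1 := by
      split_ifs with h
      · have h1 : n ≤ P + 1 := by
          have : decide (n ≤ P + 1) = true := by rw [hlj] at h; exact h
          exact of_decide_eq_true this
        have h2 : (lj.2 : ℕ) = (P + 1) % n := by rw [hlj]; rfl
        have h3 : n ≤ (P + 1) / n * n := Nat.le_mul_of_pos_left n ((Nat.one_le_div_iff hn).2 h1)
        have h4 := Nat.div_add_mod (P + 1) n
        rw [Nat.mul_comm] at h4
        omega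
      · omega
    have hwalk := walk_Phi (st := st) (x := x') lj (dist_Phi (N := N) (e := e) hK lj) hDlt _ hval
    have hpath : ReflTransGen ((dla N e K).RS st x' (P + 1))
        (P, (St.bounce (next (cls n P)) : St N e K))
        (P + 2, (St.arrive lj (bit N e w (P + 1)) : St N e K)) := by
      rw [hlj']
      refine ReflTransGen.head (b := (P + 1, (St.ev lj (Phi N e K lj).entry : St N e K))) ?_
        (hwalk.tail ?_)
      · exact ⟨by simp only; omega, Or.inl ⟨rfl,
          step_wb (r := ((St.ev lj (Phi N e K lj).entry : St N e K), Dir.right)) rfl st⟩⟩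
      · exact ⟨le_rfl, Or.inl ⟨rfl,
          step_wb (r := ((St.arrive lj (bit N e w (P + 1)) : St N e K), Dir.right)) rfl st⟩⟩
    obtain ⟨c', g1, g2, g3, g4, _, _, g7⟩ := LA.lift_frozen (n := w.length) (by omega) hpath c1
      rfl rfl rfl (by
        intro i u v h
        rcases Nat.lt_or_ge i (P + 1) with h2 | h2
        · exact Or.inr ((hst.vis i u v).2 (by omega))
        · left; omega)
    refine ⟨c', (hc.tail hstep).trans g1, g2, ?_, ?_, ?_⟩
    · rw [← hlj]; exact g3
    · refine ⟨hP, ?_, ?_, ?_⟩
      · intro i u v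
        rw [g7 i u v]
        change i ∈ insert c.head c.visited ↔ _
        constructor
        · rintro (h | h)
          · rw [h, hhead]
          · have := (hst.vis i u v).1 h; omega
        · intro h
          rcases Nat.lt_or_ge i (P + 1) with h2 | h2
          · exact Or.inr ((hst.vis i u v).2 (by omega))
          · left; omega
      · rw [g4, hx'n 0 (by omega)]; exact hst.zero
      · intro i hi
        rw [g4, hx'n i (by omega)]
        exact hst.tape i (by omega)
    · rw [g4]; exact hx'P

/-- The automaton halts with the right answer. -/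
theorem reach_end (st : Bool) (hK : 2 * n ≤ 2 ^ K) (w : List A) :
    ∃ c : LA.Cfg (dla N e K), ReflTransGen ((dla N e K).Step st w.length) ((dla N e K).init w) c ∧
      c.head = w.length + 2 ∧ c.state = (St.fin (decide (w ∈ N.accepts)) : St N e K) := by
  have hn : 0 < n := NeZero.pos n
  obtain ⟨c, hc, hhead, hstate, hst, htape⟩ := reach_pos (N := N) (e := e) st hK w w.length le_rfl
  obtain ⟨lj, hlj⟩ : ∃ lj, lj = cls n w.length := ⟨_, rfl⟩
  have hval : (Psi N e K lj).eval (fun d => c.tape (w.length + 1 - d)) =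
      decide (w ∈ N.accepts) := by
    rw [Bool.eq_iff_iff, decide_eq_true_eq, hlj]
    exact eval_Psi hK (fun i hi => htape i hi hi)
  have hDlt : (if lj.1 then n + (lj.2 : ℕ) else lj.2) < w.length + 1 := by
    have h2 : (lj.2 : ℕ) = w.length % n := by rw [hlj]; rfl
    have h4 := Nat.div_add_mod w.length n
    rw [Nat.mul_comm] at h4
    split_ifs with h
    · have h1 : n ≤ w.length := by
        have : decide (n ≤ w.length) = true := by rw [hlj] at h; exact h
        exact of_decide_eq_true this
      have h3 : n ≤ w.length / n * n :=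
        Nat.le_mul_of_pos_left n ((Nat.one_le_div_iff hn).2 h1)
      omega
    · omega
  have hwalk := walk_Psi (st := st) (x := c.tape) lj (dist_Psi (N := N) (e := e) hK lj) hDlt _ hval
  have hrend : c.tape (w.length + 1) = (Sym.rend : Sym (WS' A)) := by
    rw [hst.tape _ (Nat.lt_succ_self _), LA.initTape_end]
    rfl
  have hpath : ReflTransGen ((dla N e K).RS st c.tape (w.length + 1))
      (w.length + 1, (St.arrive (cls n w.length) (bit N e w w.length) : St N e K))
      (w.length + 2, (St.fin (decide (w ∈ N.accepts)) : St N e K)) := by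
    rw [← hlj]
    refine ReflTransGen.head (b := (w.length, (St.bounceF lj : St N e K))) ?_ (ReflTransGen.head
      (b := (w.length + 1, (St.evF lj (Psi N e K lj).entry : St N e K))) ?_ (hwalk.tail ?_))
    · refine ⟨le_rfl, Or.inr ⟨rfl, ?_⟩⟩
      simp only
      rw [hrend]
      exact step_wb (r := ((St.bounceF lj : St N e K), Dir.left)) rfl st
    · exact ⟨by simp only; omega, Or.inl ⟨rfl,
        step_wb (r := ((St.evF lj (Psi N e K lj).entry : St N e K), Dir.right)) rfl st⟩⟩
    · exact ⟨le_rfl, Or.inl ⟨rfl,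
        step_wb (r := ((St.fin (decide (w ∈ N.accepts)) : St N e K), Dir.right)) rfl st⟩⟩
  obtain ⟨c', g1, g2, g3, _⟩ := LA.lift_frozen (n := w.length) le_rfl hpath c hhead hstate rfl
    (fun i u v _ => (hst.vis i u v).2 v)
  exact ⟨c', hc.trans g1, g2, g3⟩

end sim

end DLA

/-! ### Determinism -/

theorem LA.step_unique {A : Type} {M : LA A} (hM : M.Deterministic) {st : Bool} {n : ℕ}
    {c c1 c2 : LA.Cfg M} (h1 : M.Step st n c c1) (h2 : M.Step st n c c2) : c1 = c2 := by
  obtain ⟨_, γ1, _, m1, t1, v1⟩ := h1
  obtain ⟨_, γ2, _, m2, t2, v2⟩ := h2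
  have huniq : ∀ a b : M.Q × M.W × Dir, a ∈ M.δ c.state (c.tape c.head) →
      b ∈ M.δ c.state (c.tape c.head) → a = b :=
    fun a b ha hb => Finset.card_le_one.1 (hM _ _) a ha b hb
  obtain ⟨s1, h1, x1, y1⟩ := c1
  obtain ⟨s2, h2, x2, y2⟩ := c2
  simp only at *
  rcases m1 with ⟨m1, k1⟩ | ⟨m1, k1⟩ <;> rcases m2 with ⟨m2, k2⟩ | ⟨m2, k2⟩
  · have := huniq _ _ m1 m2
    simp only [Prod.mk.injEq] at this
    obtain ⟨rfl, rfl, _⟩ := this
    subst t1 t2 v1 v2 k1 k2
    rfl
  · have := huniq _ _ m1 m2
    simp at this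
  · have := huniq _ _ m1 m2
    simp at this
  · have := huniq _ _ m1 m2
    simp only [Prod.mk.injEq] at this
    obtain ⟨rfl, rfl, _⟩ := this
    have : h1 = h2 := by omega
    subst t1 t2 v1 v2 this
    rfl

theorem LA.halt_unique {A : Type} {M : LA A} (hM : M.Deterministic) {st : Bool} {n : ℕ}
    {c c1 c2 : LA.Cfg M} (h1 : ReflTransGen (M.Step st n) c c1) (h2 : ReflTransGen (M.Step st n) c c2)
    (k1 : c1.head = n + 2) (k2 : c2.head = n + 2) : c1 = c2 := by
  have hstop : ∀ d d' : LA.Cfg M, d.head = n + 2 → ReflTransGen (M.Step st n) d d' → d = d' := by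
    intro d d' hd h
    rcases ReflTransGen.cases_head h with h | ⟨b, hb, _⟩
    · exact h
    · have := hb.1; omega
  rcases ReflTransGen.total_of_right_unique (r := M.Step st n)
    (fun _ _ _ h h' => LA.step_unique hM h h') h1 h2 with h | h
  · exact hstop _ _ k1 h
  · exact (hstop _ _ k2 h).symm

namespace DLA

theorem dla_language {A σ : Type} [Fintype σ] [Fintype A] {N : NFA A σ} {n : ℕ} [NeZero n]
    {e : σ ≃ Fin n} {K : ℕ} (hK : 2 * n ≤ 2 ^ K) (st : Bool) :
    (dla N e K).language st = N.accepts := by
  ext w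
  obtain ⟨c, hc, hhead, hstate⟩ := reach_end (N := N) (e := e) st hK w
  constructor
  · rintro ⟨c', hc', hhead', hfin⟩
    have := LA.halt_unique (dla_deterministic N e K) hc hc' hhead hhead'
    subst this
    have h1 : c.state = (St.fin true : St N e K) := by
      have : c.state ∈ ({St.fin true} : Finset (St N e K)) := hfin
      exact Finset.mem_singleton.1 this
    rw [hstate] at h1
    have : decide (w ∈ N.accepts) = true := by injection h1
    exact of_decide_eq_true this
  · intro hw
    refine ⟨c, hc, hhead, ?_⟩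
    rw [hstate, decide_eq_true hw]
    change (St.fin true : St N e K) ∈ ({St.fin true} : Finset (St N e K))
    exact Finset.mem_singleton_self _

end DLA

end Pool.Agent.Lib.P0036f5
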