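import Pool.Agent.Lib.P0036f5.Frozen

/-!
From 1-limited automata to nondeterministic finite automata.
-/

namespace Pool.Agent.Lib.P0036f5

open Relation

namespace LA

variable {A : Type} (M : LA A) (st : Bool)

/-- The nondeterministic finite automaton simulating `M`: its states are pairs of a state of `M`
(at the first arrival at the next cell) and the exit table of the cells scanned so far. -/
def toNFA : NFA A (M.Q × Set (M.Q × M.Q)) where
  step qT a := {sT' | ∃ q' γ, sT'.2 = M.E st qT.2 (Sym.sym γ) ∧
    (((q', γ, Dir.right) ∈ M.δ qT.1 (Sym.sym (M.letter a)) ∧ sT'.1 = q') ∨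
      ((q', γ, Dir.left) ∈ M.δ qT.1 (Sym.sym (M.letter a)) ∧
        ∃ r, (q', r) ∈ qT.2 ∧ (r, sT'.1) ∈ M.E st qT.2 (Sym.sym γ)))}
  start := {(M.start, M.E st ∅ Sym.lend)}
  accept := {qT | ∃ s ∈ M.final, (qT.1, s) ∈ M.E st qT.2 Sym.rend}

variable {M st}

theorem initTape_getElem {w : List A} {i : ℕ} (h : i < w.length) :
    M.initTape w (i + 1) = Sym.sym (M.letter w[i]) := by
  simp [initTape, h]

theorem initTape_end {w : List A} : M.initTape w (w.length + 1) = Sym.rend := by
  simp [initTape]

/-- Data common to the configurations after the cells `1,…,f` have been visited. -/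
structure Stage (w : List A) (f : ℕ) (c : Cfg M) : Prop where
  le : f ≤ w.length
  vis : ∀ i, 1 ≤ i → i ≤ w.length → (i ∈ c.visited ↔ i ≤ f)
  zero : c.tape 0 = Sym.lend
  tape : ∀ i, f < i → c.tape i = M.initTape w i

/-- Invariant of all reachable configurations. -/
def Inv (st : Bool) (w : List A) (c : Cfg M) : Prop :=
  (∃ f < w.length, Stage w f c ∧ c.head ≤ f + 1 ∧
    ∀ s, M.Exit st c.tape f (c.head, c.state) s → (s, M.Tab st c.tape f) ∈
      (M.toNFA st).evalFrom (M.toNFA st).start (w.take f)) ∨
  (Stage w w.length c ∧ c.head ≤ w.length + 2 ∧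
    ∀ s, M.Exit st c.tape (w.length + 1) (c.head, c.state) s →
      ∃ q, (q, M.Tab st c.tape w.length) ∈ (M.toNFA st).evalFrom (M.toNFA st).start w ∧
        (q, s) ∈ M.Tab st c.tape (w.length + 1))

/-- one move of `Step` gives a frozen move -/
theorem rs_of_step {n j : ℕ} {c c' : Cfg M} (h : M.Step st n c c') (hj : c.head ≤ j)
    (hv : ∀ γ', c.tape c.head = Sym.sym γ' → c.head ∈ c.visited) :
    M.RS st c.tape j (c.head, c.state) (c'.head, c'.state) := by
  obtain ⟨_, γ, hs, h | h, _⟩ := h
  · exact ⟨hj, Or.inl ⟨h.2, γ, h.1, fun h1 γ' h2 => hs h1 (hv _ h2) _ h2⟩⟩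
  · exact ⟨hj, Or.inr ⟨h.2, γ, h.1, fun h1 γ' h2 => hs h1 (hv _ h2) _ h2⟩⟩

theorem evalFrom_take_succ {w : List A} {f : ℕ} (hf : f < w.length)
    {σ : Type*} (N : NFA A σ) (S : Set σ) :
    N.evalFrom S (w.take (f + 1)) = N.stepSet (N.evalFrom S (w.take f)) w[f] := by
  rw [List.take_succ_eq_append_getElem hf, NFA.evalFrom_append]
  simp

/-- The invariant is established at the end of the input. -/
theorem inv_end {w : List A} {c : Cfg M} (hst : Stage w w.length c)
    (hh : c.head ≤ w.length + 1)
    (h : ∀ s, M.Exit st c.tape w.length (c.head, c.state) s → (s, M.Tab st c.tape w.length) ∈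
      (M.toNFA st).evalFrom (M.toNFA st).start w) : Inv st w c := by
  right
  refine ⟨hst, by omega, fun s hs => ?_⟩
  obtain ⟨r, hr, hrs⟩ := (exit_succ_iff (by exact hh)).1 hs
  exact ⟨r, h r hr, hrs⟩

theorem inv_init (w : List A) : Inv st w (M.init w) := by
  have hst : Stage w 0 (M.init w) := by
    refine ⟨Nat.zero_le _, ?_, rfl, fun i _ => rfl⟩
    intro i h1 h2
    simp only [init, Set.mem_empty_iff_false, false_iff]
    omega
  have hex : ∀ s, M.Exit st (M.init w).tape 0 ((M.init w).head, (M.init w).state) s →
      (s, M.Tab st (M.init w).tape 0) ∈ (M.toNFA st).evalFrom (M.toNFA st).start (w.take 0) := by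
    intro s hs
    have : M.start = s := exit_refl_iff.1 hs
    subst this
    rw [tab_zero]
    simp [toNFA, init, initTape]
  rcases Nat.eq_zero_or_pos w.length with h0 | h0
  · have hw : w = [] := List.length_eq_zero_iff.1 h0
    subst hw
    exact inv_end hst (by simp [init]) hex
  · left
    exact ⟨0, h0, hst, by simp [init], hex⟩

theorem inv_step {w : List A} {c c' : Cfg M} (hi : Inv st w c) (hs : M.Step st w.length c c') :
    Inv st w c' := by
  rcases hi with ⟨f, hf, hst, hh, hex⟩ | ⟨hst, hh, hex⟩
  · rcases Nat.lt_or_ge c.head (f + 1) with h1 | h1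
    · -- frozen move inside
      have htape : c'.tape = c.tape := by
        obtain ⟨_, γ, _, _, ht, _⟩ := hs
        rw [ht, if_neg]
        rintro ⟨u, v, x⟩
        exact x ((hst.vis _ u v).2 (by omega))
      have hvis : ∀ i, 1 ≤ i → i ≤ w.length → (i ∈ c'.visited ↔ i ≤ f) := by
        intro i u v
        obtain ⟨_, γ, _, _, _, hv⟩ := hs
        rw [hv]
        constructor
        · rintro (h | h)
          · rw [h]; omega
          · exact (hst.vis i u v).1 h
        · exact fun h => Or.inr ((hst.vis i u v).2 h)
      have hrs := rs_of_step hs (j := f) (by omega) (by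
        intro γ' hγ'
        rcases Nat.eq_zero_or_pos c.head with h0 | h0
        · rw [h0, hst.zero] at hγ'
          exact absurd hγ' (by simp)
        · exact (hst.vis _ h0 (by omega)).2 (by omega))
      left
      refine ⟨f, hf, ⟨hst.le, hvis, by rw [htape]; exact hst.zero,
        by rw [htape]; exact hst.tape⟩, ?_, fun s hse => ?_⟩
      · rcases hrs.2 with ⟨h, _⟩ | ⟨h, _⟩ <;> simp only at h <;> omega
      · rw [htape] at hse ⊢
        exact hex s (Exit.head hrs hse)
    · -- first visit of cell `f+1`
      have hhd : c.head = f + 1 := by omega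
      have hin : (c.state, M.Tab st c.tape f) ∈ (M.toNFA st).evalFrom (M.toNFA st).start (w.take f) :=
        hex c.state (by rw [hhd]; exact exit_refl_iff.2 rfl)
      obtain ⟨hle, γ, _, hmove, ht, hv⟩ := hs
      have hnv : c.head ∉ c.visited := by
        rw [hst.vis _ (by omega) (by omega)]; omega
      rw [if_pos ⟨by omega, by omega, hnv⟩] at ht
      have hsym : c.tape c.head = Sym.sym (M.letter w[f]) := by
        rw [hhd, hst.tape _ (Nat.lt_succ_self f), initTape_getElem hf]
      rw [hsym] at hmove
      have htl : ∀ i ≤ f, c'.tape i = c.tape i := by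
        intro i hi
        rw [ht, Function.update_of_ne (by omega)]
      have htf : c'.tape (f + 1) = Sym.sym γ := by
        rw [ht, ← hhd, Function.update_self]
      have htab : M.Tab st c'.tape f = M.Tab st c.tape f := tab_congr htl
      have htab' : M.Tab st c'.tape (f + 1) = M.E st (M.Tab st c.tape f) (Sym.sym γ) := by
        rw [tab_succ, htab, htf]
      have hst' : Stage w (f + 1) c' := by
        refine ⟨hf, ?_, ?_, ?_⟩
        · intro i u v
          rw [hv]
          constructor
          · rintro (h | h)
            · rw [h, hhd]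
            · have := (hst.vis i u v).1 h; omega
          · intro h
            rcases Nat.lt_or_ge i (f + 1) with h2 | h2
            · exact Or.inr ((hst.vis i u v).2 (by omega))
            · left; omega
        · rw [htl 0 (Nat.zero_le _)]; exact hst.zero
        · intro i hi
          rw [ht, Function.update_of_ne (by omega)]
          exact hst.tape i (by omega)
      have key : ∀ s, M.Exit st c'.tape (f + 1) (c'.head, c'.state) s →
          (s, M.Tab st c'.tape (f + 1)) ∈ (M.toNFA st).evalFrom (M.toNFA st).start (w.take (f + 1)) := by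
        intro s hse
        rw [evalFrom_take_succ hf, NFA.mem_stepSet]
        refine ⟨_, hin, ?_⟩
        rcases hmove with ⟨hm, hh'⟩ | ⟨hm, hh'⟩
        · have : c'.head = f + 1 + 1 := by omega
          rw [this] at hse
          have := exit_refl_iff.1 hse
          subst this
          exact ⟨c'.state, γ, htab', Or.inl ⟨hm, rfl⟩⟩
        · obtain ⟨r, hr, hrs⟩ := (exit_succ_iff (by simp only; omega)).1 hse
          refine ⟨c'.state, γ, htab', Or.inr ⟨hm, r, ?_, ?_⟩⟩
          · rw [← htab]
            have : c'.head = f := by omega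
            rw [this] at hr
            exact hr
          · rw [htab'] at hrs
            exact hrs
      have hhead : c'.head ≤ f + 1 + 1 := by
        rcases hmove with ⟨_, h⟩ | ⟨_, h⟩ <;> omega
      rcases Nat.lt_or_ge (f + 1) w.length with h2 | h2
      · left
        exact ⟨f + 1, h2, hst', hhead, key⟩
      · have hfl : f + 1 = w.length := by omega
        rw [hfl] at hst' hhead key
        rw [List.take_length] at key
        exact inv_end hst' hhead key
  · -- all letters visited
    have hle := hs.1
    have htape : c'.tape = c.tape := by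
      obtain ⟨_, γ, _, _, ht, _⟩ := hs
      rw [ht, if_neg]
      rintro ⟨u, v, x⟩
      exact x ((hst.vis _ u v).2 v)
    have hvis : ∀ i, 1 ≤ i → i ≤ w.length → (i ∈ c'.visited ↔ i ≤ w.length) := by
      intro i u v
      obtain ⟨_, γ, _, _, _, hv⟩ := hs
      rw [hv]
      refine ⟨fun _ => v, fun h => Or.inr ((hst.vis i u v).2 h)⟩
    have hrs := rs_of_step hs (j := w.length + 1) hle (by
      intro γ' hγ'
      rcases Nat.eq_zero_or_pos c.head with h0 | h0
      · rw [h0, hst.zero] at hγ'
        exact absurd hγ' (by simp)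
      · rcases Nat.lt_or_ge w.length c.head with h1 | h1
        · have : c.head = w.length + 1 := by omega
          rw [this, hst.tape _ (Nat.lt_succ_self _), initTape_end] at hγ'
          exact absurd hγ' (by simp)
        · exact (hst.vis _ h0 h1).2 h1)
    right
    refine ⟨⟨le_rfl, hvis, by rw [htape]; exact hst.zero, by rw [htape]; exact hst.tape⟩,
      ?_, fun s hse => ?_⟩
    · rcases hrs.2 with ⟨h, _⟩ | ⟨h, _⟩ <;> simp only at h <;> omega
    · rw [htape] at hse ⊢
      exact hex s (Exit.head hrs hse)

theorem toNFA_of_accepts {w : List A} (h : M.Accepts st w) : w ∈ (M.toNFA st).accepts := by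
  obtain ⟨c, hc, hhead, hfin⟩ := h
  have hinv : Inv st w c := by
    clear hhead hfin
    induction hc with
    | refl => exact inv_init w
    | tail _ hbc ih => exact inv_step ih hbc
  rcases hinv with ⟨f, hf, _, hh, _⟩ | ⟨hst, _, hex⟩
  · omega
  · obtain ⟨q, hq, hqs⟩ := hex c.state (by rw [hhead]; exact exit_refl_iff.2 rfl)
    rw [tab_succ, hst.tape _ (Nat.lt_succ_self _), initTape_end] at hqs
    exact ⟨(q, M.Tab st c.tape w.length), ⟨c.state, hfin, hqs⟩, hq⟩

/-- Every run of the finite automaton is realised by a computation. -/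
theorem reach_of_eval {w : List A} : ∀ f, f ≤ w.length → ∀ qT,
    qT ∈ (M.toNFA st).evalFrom (M.toNFA st).start (w.take f) →
    ∃ c : Cfg M, ReflTransGen (M.Step st w.length) (M.init w) c ∧ c.head = f + 1 ∧
      c.state = qT.1 ∧ M.Tab st c.tape f = qT.2 ∧ Stage w f c := by
  intro f
  induction f with
  | zero =>
    intro _ qT h
    refine ⟨M.init w, ReflTransGen.refl, rfl, ?_, ?_, ?_⟩
    · simp only [List.take_zero, NFA.evalFrom_nil, toNFA, Set.mem_singleton_iff] at h
      rw [h]; rfl
    · simp only [List.take_zero, NFA.evalFrom_nil, toNFA, Set.mem_singleton_iff] at h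
      rw [h, tab_zero]; rfl
    · refine ⟨Nat.zero_le _, ?_, rfl, fun i _ => rfl⟩
      intro i h1 h2
      simp only [init, Set.mem_empty_iff_false, false_iff]
      omega
  | succ f ih =>
    intro hf sT hmem
    have hf' : f < w.length := hf
    rw [evalFrom_take_succ hf', NFA.mem_stepSet] at hmem
    obtain ⟨qT, hqT, q', γ, hT', hcase⟩ := hmem
    obtain ⟨c, hc, hhead, hstate, htab, hst⟩ := ih (by omega) qT hqT
    have hnv : c.head ∉ c.visited := by
      rw [hhead, hst.vis _ (by omega) (by omega)]; omega
    have hsym : c.tape c.head = Sym.sym (M.letter w[f]) := by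
      rw [hhead, hst.tape _ (Nat.lt_succ_self f), initTape_getElem hf']
    -- the tape after the first visit
    set x' : ℕ → Sym M.W := Function.update c.tape c.head (Sym.sym γ) with hx'
    have htl : ∀ i ≤ f, x' i = c.tape i := by
      intro i hi
      rw [hx', Function.update_of_ne (by omega)]
    have htf : x' (f + 1) = Sym.sym γ := by
      rw [hx', ← hhead, Function.update_self]
    have htab1 : M.Tab st x' f = qT.2 := by rw [tab_congr htl, htab]
    have htab' : M.Tab st x' (f + 1) = sT.2 := by
      rw [tab_succ, htab1, htf, hT']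
    have hst' : ∀ c1 : Cfg M, c1.tape = x' →
        (∀ i, 1 ≤ i → i ≤ w.length → (i ∈ c1.visited ↔ i ∈ insert c.head c.visited)) →
        Stage w (f + 1) c1 := by
      intro c1 h1 h2
      refine ⟨hf, ?_, ?_, ?_⟩
      · intro i u v
        rw [h2 i u v]
        constructor
        · rintro (h | h)
          · rw [h, hhead]
          · have := (hst.vis i u v).1 h; omega
        · intro h
          rcases Nat.lt_or_ge i (f + 1) with h2 | h2
          · exact Or.inr ((hst.vis i u v).2 (by omega))
          · left; omega
      · rw [h1, htl 0 (Nat.zero_le _)]; exact hst.zero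
      · intro i hi
        rw [h1, hx', Function.update_of_ne (by omega)]
        exact hst.tape i (by omega)
    rcases hcase with ⟨hm, hq⟩ | ⟨hm, r, hr, hrs⟩
    · -- move right
      let c1 : Cfg M := ⟨q', c.head + 1, x', insert c.head c.visited⟩
      have hstep : M.Step st w.length c c1 := by
        refine ⟨by omega, γ, fun _ h => absurd h hnv, Or.inl ⟨?_, rfl⟩, ?_, rfl⟩
        · rw [hsym, hstate]; exact hm
        · rw [if_pos ⟨by omega, by omega, hnv⟩]
      exact ⟨c1, hc.tail hstep, by simp only [c1]; omega, hq.symm, htab',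
        hst' c1 rfl (fun _ _ _ => Iff.rfl)⟩
    · -- move left
      let c1 : Cfg M := ⟨q', f, x', insert c.head c.visited⟩
      have hstep : M.Step st w.length c c1 := by
        refine ⟨by omega, γ, fun _ h => absurd h hnv, Or.inr ⟨?_, hhead.symm⟩, ?_, rfl⟩
        · rw [hsym, hstate]; exact hm
        · rw [if_pos ⟨by omega, by omega, hnv⟩]
      have hpath : M.Exit st x' (f + 1) (f, q') sT.1 := by
        refine (exit_succ_iff (by simp only; omega)).2 ⟨r, ?_, ?_⟩
        · have : (q', r) ∈ M.Tab st x' f := by rw [htab1]; exact hr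
          exact this
        · rw [tab_succ, htab1, htf]; exact hrs
      obtain ⟨c', g1, g2, g3, g4, _, _, g7⟩ := lift_frozen (n := w.length) (by omega) hpath c1
        rfl rfl rfl (by
          intro i u v _
          rcases Nat.lt_or_ge i (f + 1) with h2 | h2
          · exact Or.inr ((hst.vis i u v).2 (by omega))
          · left; omega)
      refine ⟨c', (hc.tail hstep).trans g1, by rw [g2], g3, by rw [g4]; exact htab',
        hst' c' g4 (fun i u v => g7 i u v)⟩

theorem accepts_of_toNFA {w : List A} (h : w ∈ (M.toNFA st).accepts) : M.Accepts st w := by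
  obtain ⟨qT, ⟨s, hs, hqs⟩, hq⟩ := h
  have hq' : qT ∈ (M.toNFA st).evalFrom (M.toNFA st).start (w.take w.length) := by
    rw [List.take_length]; exact hq
  obtain ⟨c, hc, hhead, hstate, htab, hst⟩ := reach_of_eval w.length le_rfl qT hq'
  have hpath : M.Exit st c.tape (w.length + 1) (w.length + 1, qT.1) s := by
    have : (qT.1, s) ∈ M.Tab st c.tape (w.length + 1) := by
      rw [tab_succ, htab, hst.tape _ (Nat.lt_succ_self _), initTape_end]
      exact hqs
    exact this
  obtain ⟨c', g1, g2, g3, _⟩ := lift_frozen (n := w.length) le_rfl hpath c hhead hstate rfl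
    (fun i u v _ => (hst.vis i u v).2 v)
  exact ⟨c', hc.trans g1, g2, by rw [g3]; exact hs⟩

theorem toNFA_accepts (M : LA A) (st : Bool) : (M.toNFA st).accepts = M.language st := by
  ext w
  exact ⟨accepts_of_toNFA, toNFA_of_accepts⟩

end LA

end Pool.Agent.Lib.P0036f5
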